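import Pool.Agent.H342R3.Pin.Stubs
import Pool.Agent.H984R3.Per.PerBig

/-!
Deterministic conclusion: if the largest cluster is large, does not run along the boundary layer, and
every far reaching strand in the bulk is pinched, then the outer boundary of the largest cluster is
pinched.
-/

namespace H342N

open H974 H984P H342P Finset

theorem BIG_outer {F : Set Edg} {v f g : Vtx} (hf : Outer F v f) (h : DReach Fᶜ f g) :
    Outer F v g := by
  unfold Outer at hf ⊢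
  refine (h.symm.mono ?_).trans hf
  apply Set.compl_subset_compl.2
  intro e he
  exact he.1

theorem BIG_pin (hB : St_BRI) {F : Set Edg} {v : Vtx} {d : ℤ} {σ : St} (hv : Reach F v σ.1)
    (ho : Outer F v (face σ)) (h : Pin d σ Set.univ F) : PinV d v F := by
  obtain ⟨e, v1, v2, u1, u2, f1, f2, he, hends, hr, ⟨hr1, hr2⟩, hinc, hfar, ⟨hd1, hd2⟩,
    hds, hdt⟩ := h
  rw [Set.inter_univ] at he hr hr1 hr2
  rw [← Set.compl_eq_univ_sdiff] at hd1 hd2 hds hdt
  refine ⟨e, v1, v2, u1, u2, f1, f2, he, hends, hv.trans hr, ⟨hr1, hr2⟩, ?_, hinc, hfar,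
    BIG_outer ho hd1, BIG_outer ho hd2⟩
  have hb := hB F e he (hds.symm.trans hdt)
  intro hcon
  rcases hends with ⟨h1, h2⟩ | ⟨h1, h2⟩
  · apply hb
    rw [h1, h2]
    exact hcon
  · apply hb
    rw [h1, h2]
    exact hcon.symm

theorem t_BIG (hB : St_BRI) : St_BIG := by
  intro n F R R1 m dd hF hm hR h1 h2 hlay hlow v hv
  classical
  have hm0 : 0 < m := by omega
  obtain ⟨a, b, ha, hb, hmax⟩ := hv
  obtain ⟨c, d, hc, hd, hcd, h8⟩ := hm
  have h8' : 8 * m ^ 2 ≤ dsq a b := h8.trans (hmax c d hc hd hcd)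
  have hab : 2 * m ≤ |a.1 - b.1| ∨ 2 * m ≤ |a.2 - b.2| := by
    by_contra hcon
    push Not at hcon
    obtain ⟨h3, h4⟩ := hcon
    unfold dsq at h8'
    have h5 : (a.1 - b.1) ^ 2 < (2 * m) ^ 2 := sq_lt_sq' (by linarith [(abs_lt.1 h3).1]) (abs_lt.1 h3).2
    have h6 : (a.2 - b.2) ^ 2 < (2 * m) ^ 2 := sq_lt_sq' (by linarith [(abs_lt.1 h4).1]) (abs_lt.1 h4).2
    nlinarith
  have hane : a ≠ b := by
    rintro rfl
    simp only [sub_self, abs_zero] at hab
    omega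
  -- every vertex of the cluster is in the box
  have hex : ∃ w, w ≠ v ∧ Reach (↑F : Set Edg) v w := by
    by_cases h3 : a = v
    · exact ⟨b, fun h4 => hane (h3.trans h4.symm), hb⟩
    · exact ⟨a, h3, ha⟩
  have hbox : ∀ w, Reach (↑F : Set Edg) v w → inR 0 n 0 n w := by
    intro w hw
    by_cases h3 : v = w
    · subst h3
      obtain ⟨w', h4, h5⟩ := hex
      exact pb_box hF h5.symm h4
    · exact pb_box hF hw h3
  -- a leftmost vertex
  obtain ⟨vL, hvL, hleft⟩ : ∃ vL, Reach (↑F : Set Edg) v vL ∧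
      ∀ w, Reach (↑F : Set Edg) v w → vL.1 ≤ w.1 := by
    have hne : ∃ k : ℕ, ∃ w, Reach (↑F : Set Edg) v w ∧ w.1 = k := by
      have h3 := hbox v (Reach.refl _ _)
      unfold inR at h3
      exact ⟨v.1.toNat, v, Reach.refl _ _, by omega⟩
    obtain ⟨w, hw, hwk⟩ := Nat.find_spec hne
    refine ⟨w, hw, fun w' hw' => ?_⟩
    have h3 := hbox w' hw'
    unfold inR at h3
    have h4 : Nat.find hne ≤ w'.1.toNat := Nat.find_min' hne ⟨w', hw', by omega⟩
    omega
  set σ : St := (vL, .nw) with hσ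
  have hσ1 : σ.1 = vL := rfl
  have hleft' : ∀ w, Reach (↑F : Set Edg) σ.1 w → σ.1.1 ≤ w.1 := by
    intro w hw
    exact hleft w (hvL.trans hw)
  have horb : ∀ s, Reach (↑F : Set Edg) v (orb (↑F) σ s).1 := fun s =>
    hvL.trans (pb_reach (↑F) σ s)
  have hextA := orb_extent (F := F) (σ := σ) rfl hleft' (hvL.symm.trans ha)
  have hextB := orb_extent (F := F) (σ := σ) rfl hleft' (hvL.symm.trans hb)
  -- two far apart states
  obtain ⟨t1, t2, ht12, hfar⟩ : ∃ t1 t2 : ℕ, t1 ≤ t2 ∧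
      (2 * m ≤ |(orb (↑F) σ t1).1.1 - (orb (↑F) σ t2).1.1| ∨
        2 * m ≤ |(orb (↑F) σ t1).1.2 - (orb (↑F) σ t2).1.2|) := by
    have hsym : (∃ t1 t2 : ℕ, (2 * m ≤ |(orb (↑F) σ t1).1.1 - (orb (↑F) σ t2).1.1| ∨
        2 * m ≤ |(orb (↑F) σ t1).1.2 - (orb (↑F) σ t2).1.2|)) → ∃ t1 t2 : ℕ, t1 ≤ t2 ∧
      (2 * m ≤ |(orb (↑F) σ t1).1.1 - (orb (↑F) σ t2).1.1| ∨
        2 * m ≤ |(orb (↑F) σ t1).1.2 - (orb (↑F) σ t2).1.2|) := by
      rintro ⟨t1, t2, h⟩
      rcases le_total t1 t2 with h3 | h3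
      · exact ⟨t1, t2, h3, h⟩
      · refine ⟨t2, t1, h3, ?_⟩
        rw [abs_sub_comm, abs_sub_comm (orb (↑F) σ t2).1.2]
        exact h
    apply hsym
    obtain ⟨⟨ta, hta⟩, ⟨ta2, hta2⟩, ⟨ta3, hta3⟩⟩ := hextA
    obtain ⟨⟨tb, htb⟩, ⟨tb2, htb2⟩, ⟨tb3, htb3⟩⟩ := hextB
    have hla := hleft a ha
    have hlb := hleft b hb
    have h0 : (orb (↑F) σ 0).1.1 = vL.1 := rfl
    rcases hab with h3 | h3
    · rcases abs_cases (a.1 - b.1) with ⟨h4, h5⟩ | ⟨h4, h5⟩
      · refine ⟨ta, 0, Or.inl ?_⟩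
        rw [h0]
        have := le_abs_self ((orb (↑F) σ ta).1.1 - vL.1)
        omega
      · refine ⟨tb, 0, Or.inl ?_⟩
        rw [h0]
        have := le_abs_self ((orb (↑F) σ tb).1.1 - vL.1)
        omega
    · rcases abs_cases (a.2 - b.2) with ⟨h4, h5⟩ | ⟨h4, h5⟩
      · refine ⟨ta2, tb3, Or.inr ?_⟩
        have := le_abs_self ((orb (↑F) σ ta2).1.2 - (orb (↑F) σ tb3).1.2)
        omega
      · refine ⟨tb2, ta3, Or.inr ?_⟩
        have := le_abs_self ((orb (↑F) σ tb2).1.2 - (orb (↑F) σ ta3).1.2)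
        omega
  obtain ⟨T, rfl⟩ : ∃ T, t2 = T + t1 := ⟨t2 - t1, by omega⟩
  rw [orb_add] at hfar
  set σ1 : St := orb (↑F) σ t1 with hσ1'
  obtain ⟨s, hsT, hs⟩ := pb_leave hlay (σ := σ1) (T := T) (by
    rcases hfar with h | h
    · exact Or.inl (by omega)
    · exact Or.inr (by omega))
  set σ' : St := orb (↑F) σ1 s with hσ'
  have hσ'' : σ' = orb (↑F) σ (s + t1) := by rw [orb_add]
  -- the orbit of `σ'` goes far
  have hgo : ∃ t, Far σ'.1 R (orb (↑F) σ' t).1 := by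
    obtain ⟨p, hp, hpσ⟩ := pb_period (n := n) (F := (↑F : Set Edg)) (σ := σ1) (by
      intro s'
      have := horb (s' + t1)
      rw [orb_add] at this
      exact hbox _ this)
    have hback : orb (↑F : Set Edg) σ' (s * p - s) = σ1 := by
      rw [hσ', ← orb_add]
      have : s * p - s + s = s * p := Nat.sub_add_cancel (Nat.le_mul_of_pos_right s hp)
      rw [this]
      exact pb_period_mul hpσ s
    have hfwd : orb (↑F : Set Edg) σ' (T - s) = orb (↑F) σ1 T := by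
      rw [hσ', ← orb_add, Nat.sub_add_cancel hsT]
    by_contra hcon
    push Not at hcon
    have h3 := hcon (s * p - s)
    have h4 := hcon (T - s)
    rw [hback] at h3
    rw [hfwd] at h4
    unfold Far at h3 h4
    push Not at h3 h4
    rcases hfar with h | h
    · rcases abs_cases (σ1.1.1 - (orb (↑F) σ1 T).1.1) with ⟨h5, -⟩ | ⟨h5, -⟩ <;> omega
    · rcases abs_cases (σ1.1.2 - (orb (↑F) σ1 T).1.2) with ⟨h5, -⟩ | ⟨h5, -⟩ <;> omega
  have hpin : Pin dd σ' Set.univ (↑F) := by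
    by_contra hcon
    exact hlow ⟨σ', hs, hgo, hcon⟩
  have hvLbox := hbox vL hvL
  unfold inR at hvLbox
  have hout := outer_left hF (σ := σ) rfl hleft' hvLbox.1.1 hvLbox.2.1
  have hEC : EC (↑F : Set Edg) v = EC (↑F) vL := by
    unfold EC
    ext e
    constructor
    · rintro ⟨he, h3⟩
      exact ⟨he, hvL.symm.trans h3⟩
    · rintro ⟨he, h3⟩
      exact ⟨he, hvL.trans h3⟩
  have hout' : Outer (↑F) v (face σ') := by
    unfold Outer at hout ⊢
    rw [hEC]
    have h3 := pb_dreach (↑F) σ (s + t1)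
    rw [← hσ''] at h3
    refine (h3.symm.mono ?_).trans hout
    apply Set.compl_subset_compl.2
    intro e he
    exact he.1
  exact BIG_pin hB (by rw [hσ'']; exact horb _) hout' hpin

end H342N
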