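import Pool.Agent.H342R3.Pin.Stubs

/-!
CLO and DBL: approximate double points of curves, by compactness.
-/

set_option autoImplicit false

namespace H342N

open H974 H984P H342P Finset

/-- compactness: approximate double points with all precisions give a double point. -/
theorem clo_compact (c : H342L.Curve) (ρ h : ℝ)
    (H : ∀ ε : ℝ, 0 < ε → DP (ρ - ε) (h + ε) c) : DP ρ h c := by
  let I := unitInterval
  let K : ℕ → Set (I × I × I × I) := fun n =>
    {p | p.1 ≤ p.2.1} ∩ ({p | dist (c.path p.1) (c.path p.2.1) ≤ h + 1 / ((n : ℝ) + 1)} ∩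
      ((({p | p.1 ≤ p.2.2.1} ∩ {p | p.2.2.1 ≤ p.2.1}) ∩
        {p | ρ - 1 / ((n : ℝ) + 1) ≤ dist (c.path p.2.2.1) (c.path p.1)}) ∩
      (({p | p.2.2.2 ≤ p.1} ∪ {p | p.2.1 ≤ p.2.2.2}) ∩
        {p | ρ - 1 / ((n : ℝ) + 1) ≤ dist (c.path p.2.2.2) (c.path p.1)})))
  have c1 : Continuous (fun p : I × I × I × I => p.1) := continuous_fst
  have c2 : Continuous (fun p : I × I × I × I => p.2.1) := continuous_fst.comp continuous_snd
  have c3 : Continuous (fun p : I × I × I × I => p.2.2.1) :=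
    continuous_fst.comp (continuous_snd.comp continuous_snd)
  have c4 : Continuous (fun p : I × I × I × I => p.2.2.2) :=
    continuous_snd.comp (continuous_snd.comp continuous_snd)
  have hc := c.path.continuous
  have hclosed : ∀ n, IsClosed (K n) := by
    intro n
    refine (isClosed_le c1 c2).inter (IsClosed.inter ?_ (IsClosed.inter (IsClosed.inter
      ((isClosed_le c1 c3).inter (isClosed_le c3 c2)) ?_) (IsClosed.inter
      ((isClosed_le c4 c1).union (isClosed_le c2 c4)) ?_)))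
    · exact isClosed_le ((hc.comp c1).dist (hc.comp c2)) continuous_const
    · exact isClosed_le continuous_const ((hc.comp c3).dist (hc.comp c1))
    · exact isClosed_le continuous_const ((hc.comp c4).dist (hc.comp c1))
  have hne : ∀ n, (K n).Nonempty := by
    intro n
    obtain ⟨s, t, h1, h2, ⟨u, h3, h4⟩, ⟨v, h5, h6⟩⟩ := H (1 / ((n : ℝ) + 1)) (by positivity)
    exact ⟨(s, t, u, v), h1, h2, ⟨⟨h3.1, h3.2⟩, h4⟩, h5, h6⟩
  have hanti : ∀ n, K (n + 1) ⊆ K n := by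
    intro n p hp
    obtain ⟨h1, h2, ⟨h3, h4⟩, h5, h6⟩ := hp
    have hle : 1 / (((n + 1 : ℕ) : ℝ) + 1) ≤ 1 / ((n : ℝ) + 1) := by
      apply one_div_le_one_div_of_le (by positivity)
      push_cast
      linarith
    refine ⟨h1, ?_, ⟨h3, ?_⟩, h5, ?_⟩
    · have h2' : dist (c.path p.1) (c.path p.2.1) ≤ h + 1 / (((n + 1 : ℕ) : ℝ) + 1) := h2
      show dist (c.path p.1) (c.path p.2.1) ≤ h + 1 / ((n : ℝ) + 1)
      linarith
    · have h4' : ρ - 1 / (((n + 1 : ℕ) : ℝ) + 1) ≤ dist (c.path p.2.2.1) (c.path p.1) := h4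
      show ρ - 1 / ((n : ℝ) + 1) ≤ dist (c.path p.2.2.1) (c.path p.1)
      linarith
    · have h6' : ρ - 1 / (((n + 1 : ℕ) : ℝ) + 1) ≤ dist (c.path p.2.2.2) (c.path p.1) := h6
      show ρ - 1 / ((n : ℝ) + 1) ≤ dist (c.path p.2.2.2) (c.path p.1)
      linarith
  obtain ⟨p, hp⟩ := IsCompact.nonempty_iInter_of_sequence_nonempty_isCompact_isClosed K hanti hne
    (hclosed 0).isCompact hclosed
  rw [Set.mem_iInter] at hp
  have hA : ∀ ε : ℝ, 0 < ε → dist (c.path p.1) (c.path p.2.1) ≤ h + ε ∧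
      ρ ≤ dist (c.path p.2.2.1) (c.path p.1) + ε ∧
      ρ ≤ dist (c.path p.2.2.2) (c.path p.1) + ε := by
    intro ε hε
    obtain ⟨n, hn⟩ := exists_nat_one_div_lt hε
    obtain ⟨h1, h2, ⟨h3, h4⟩, h5, h6⟩ := hp n
    have h2' : dist (c.path p.1) (c.path p.2.1) ≤ h + 1 / ((n : ℝ) + 1) := h2
    have h4' : ρ - 1 / ((n : ℝ) + 1) ≤ dist (c.path p.2.2.1) (c.path p.1) := h4
    have h6' : ρ - 1 / ((n : ℝ) + 1) ≤ dist (c.path p.2.2.2) (c.path p.1) := h6
    refine ⟨by linarith, by linarith, by linarith⟩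
  obtain ⟨h1, -, ⟨h3, -⟩, h5, -⟩ := hp 0
  refine ⟨p.1, p.2.1, h1, le_of_forall_pos_le_add fun ε hε => (hA ε hε).1,
    ⟨p.2.2.1, ⟨h3.1, h3.2⟩, le_of_forall_pos_le_add fun ε hε => (hA ε hε).2.1⟩,
    ⟨p.2.2.2, h5, le_of_forall_pos_le_add fun ε hε => (hA ε hε).2.2⟩⟩

theorem t_CLO : St_CLO := by
  intro ρ h
  apply isClosed_of_closure_subset
  intro c hcl
  apply clo_compact
  intro ε hε
  obtain ⟨c', hc', hd⟩ := Metric.mem_closure_iff.mp hcl (ε / 2) (by linarith)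
  rw [H342L.Curve.dist_def, H342L.cdist_eq] at hd
  obtain ⟨φ, hφ⟩ := exists_lt_of_ciInf_lt hd
  have key : ∀ r : unitInterval, dist (c.path (φ.symm r)) (c'.path r) < ε / 2 := by
    intro r
    have h1 := ContinuousMap.dist_apply_le_dist (f := c.path) (g := H342L.rep c'.path φ) (φ.symm r)
    rw [H342L.rep_apply, OrderIso.apply_symm_apply] at h1
    exact lt_of_le_of_lt h1 hφ
  have far : ∀ u s : unitInterval, ρ ≤ dist (c'.path u) (c'.path s) →
      ρ - ε ≤ dist (c.path (φ.symm u)) (c.path (φ.symm s)) := by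
    intro u s hus
    have h1 := dist_triangle4 (c'.path u) (c.path (φ.symm u)) (c.path (φ.symm s)) (c'.path s)
    have h2 := key u
    have h3 := key s
    rw [dist_comm] at h2
    linarith
  obtain ⟨s, t, h1, h2, ⟨u, h3, h4⟩, ⟨v, h5, h6⟩⟩ := hc'
  refine ⟨φ.symm s, φ.symm t, φ.symm.monotone h1, ?_, ⟨φ.symm u, ⟨φ.symm.monotone h3.1,
    φ.symm.monotone h3.2⟩, far u s h4⟩, ⟨φ.symm v, ?_, far v s h6⟩⟩
  · have h7 := dist_triangle4 (c.path (φ.symm s)) (c'.path s) (c'.path t) (c.path (φ.symm t))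
    have h8 := key s
    have h9 := key t
    rw [dist_comm] at h9
    linarith
  · rcases h5 with h5 | h5
    · exact Or.inl (φ.symm.monotone h5)
    · exact Or.inr (φ.symm.monotone h5)

theorem t_DBL : St_DBL := by
  intro c ρ hρ H
  have hD : DP ρ 0 c := by
    apply clo_compact
    intro ε hε
    obtain ⟨s, t, h1, h2, ⟨u, h3, h4⟩, ⟨v, h5, h6⟩⟩ := H ε hε
    exact ⟨s, t, h1, by linarith, ⟨u, h3, by linarith⟩, ⟨v, h5, by linarith⟩⟩
  obtain ⟨s, t, h1, h2, ⟨u, h3, h4⟩, ⟨v, h5, h6⟩⟩ := hD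
  have hst : c.path s = c.path t := dist_le_zero.mp h2
  have hus : c.path u ≠ c.path s := by
    intro h
    rw [h, dist_self] at h4
    linarith
  have hvs : c.path v ≠ c.path s := by
    intro h
    rw [h, dist_self] at h6
    linarith
  have hu1 : s < u := lt_of_le_of_ne h3.1 (fun h => hus (by rw [h]))
  have hu2 : u < t := lt_of_le_of_ne h3.2 (fun h => hus (by rw [h, hst]))
  refine ⟨s, t, hu1.trans hu2, hst, ⟨u, ⟨hu1, hu2⟩, hus⟩, ⟨v, ?_, hvs⟩⟩
  rcases h5 with h5 | h5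
  · exact Or.inl (lt_of_le_of_ne h5 (fun h => hvs (by rw [h])))
  · exact Or.inr (lt_of_le_of_ne h5 (fun h => hvs (by rw [← h, hst])))

end H342N
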