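import Pool.Agent.H342R3.Pin.Stubs

namespace H342N

open H974 H984P H342P Finset

/-- A connected set of times which is mapped into `P ∪ Q` and meets `c ⁻¹ P` is mapped into `P`. -/
theorem CUR_side {c : C(unitInterval, ℂ)} {P Q : Set ℂ} (hP : IsClosed P) (hQ : IsClosed Q)
    (hPQ : Disjoint P Q) {I : Set unitInterval} (hI : IsPreconnected I)
    (h : ∀ t ∈ I, c t ∈ P ∪ Q) {a : unitInterval} (ha : a ∈ I) (haP : c a ∈ P) :
    ∀ t ∈ I, c t ∈ P := by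
  intro t ht
  by_contra hcon
  have htQ : c t ∈ Q := (h t ht).resolve_left hcon
  have h1 := (isPreconnected_closed_iff.mp hI) (c ⁻¹' P) (c ⁻¹' Q) (hP.preimage c.continuous)
    (hQ.preimage c.continuous) (fun s hs => h s hs) ⟨a, ha, haP⟩ ⟨t, ht, htQ⟩
  obtain ⟨s, _, hs1, hs2⟩ := h1
  exact Set.disjoint_left.mp hPQ hs1 hs2

theorem CUR_main {c : C(unitInterval, ℂ)} {ρ h : ℝ} (hc : c 0 = c 1) {z : ℂ} {P Q : Set ℂ}
    (hP : IsClosed P) (hQ : IsClosed Q) (hPQ : Disjoint P Q)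
    (hcov : Set.range c ⊆ (P ∪ Q) ∪ Metric.closedBall z h) {tp tq : unitInterval}
    (hp : c tp ∈ P) (hpz : ρ ≤ dist (c tp) z) (hq : c tq ∈ Q) (hqz : ρ ≤ dist (c tq) z)
    (hlt : tp < tq) : ∃ s t : unitInterval, s ≤ t ∧ dist (c s) (c t) ≤ 2 * h ∧
    (∃ u : unitInterval, (s ≤ u ∧ u ≤ t) ∧ ρ - h ≤ dist (c u) (c s)) ∧
    (∃ u : unitInterval, (u ≤ s ∨ t ≤ u) ∧ ρ - h ≤ dist (c u) (c s)) := by
  have hcov' : ∀ t, c t ∉ Metric.closedBall z h → c t ∈ P ∪ Q := by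
    intro t ht
    exact (hcov ⟨t, rfl⟩).resolve_right ht
  have h1 : ∃ s, tp ≤ s ∧ s ≤ tq ∧ c s ∈ Metric.closedBall z h := by
    by_contra hcon
    push Not at hcon
    have := CUR_side hP hQ hPQ (I := Set.Icc tp tq) isPreconnected_Icc
      (fun t ht => hcov' t (hcon t ht.1 ht.2)) ⟨le_rfl, hlt.le⟩ hp tq ⟨hlt.le, le_rfl⟩
    exact Set.disjoint_left.mp hPQ this hq
  have h2 : ∃ t, (t ≤ tp ∨ tq ≤ t) ∧ c t ∈ Metric.closedBall z h := by
    by_contra hcon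
    push Not at hcon
    have e0 := CUR_side hP hQ hPQ (I := Set.Iic tp) isPreconnected_Iic
      (fun t ht => hcov' t (hcon t (Or.inl ht))) (le_refl tp) hp 0 (show (0:unitInterval) ≤ tp from unitInterval.nonneg')
    have e1 := CUR_side hQ hP hPQ.symm (I := Set.Ici tq) isPreconnected_Ici
      (fun t ht => (hcov' t (hcon t (Or.inr ht))).symm) (le_refl tq) hq 1 (show tq ≤ (1:unitInterval) from unitInterval.le_one')
    rw [hc] at e0
    exact Set.disjoint_left.mp hPQ e0 e1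
  obtain ⟨s, hs1, hs2, hs3⟩ := h1
  obtain ⟨t, ht1, ht2⟩ := h2
  rw [Metric.mem_closedBall] at hs3 ht2
  have hst : dist (c s) (c t) ≤ 2 * h := by
    have := dist_triangle_right (c s) (c t) z
    linarith
  have key : ∀ (u w : unitInterval), ρ ≤ dist (c u) z → dist (c w) z ≤ h →
      ρ - h ≤ dist (c u) (c w) := by
    intro u w h1 h2
    have := dist_triangle (c u) (c w) z
    linarith
  rcases ht1 with ht1 | ht1
  · refine ⟨t, s, ht1.trans hs1, by rw [dist_comm]; exact hst, ⟨tp, ⟨ht1, hs1⟩, key _ _ hpz ht2⟩,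
      tq, Or.inr hs2, key _ _ hqz ht2⟩
  · refine ⟨s, t, hs2.trans ht1, hst, ⟨tq, ⟨hs2, ht1⟩, key _ _ hqz hs3⟩, tp, Or.inl hs1,
      key _ _ hpz hs3⟩

theorem t_CUR : St_CUR := by
  rintro c ρ h hc hh ⟨z, P, Q, hP, hQ, hPQ, hcov, ⟨p, ⟨tp, rfl⟩, hp, hpz⟩, q, ⟨tq, rfl⟩, hq, hqz⟩
  rcases lt_trichotomy tp tq with h1 | h1 | h1
  · exact CUR_main hc hP hQ hPQ hcov hp hpz hq hqz h1
  · exfalso
    rw [h1] at hp
    exact Set.disjoint_left.mp hPQ hp hq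
  · exact CUR_main hc hQ hP hPQ.symm (by rw [Set.union_comm Q P]; exact hcov) hq hqz hp hpz h1

end H342N
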