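import Pool.Agent.H342R3.Pin.Stubs

/-!
N-DET: a closed ring around the tip of a strand creates a pinch.
-/

namespace H342N

open H974 H984P H342P Finset

theorem DET_rg1 {X Y : ℤ} {a : ℕ} (ha : 1 ≤ a) {e : Edg} (he : e ∈ dE (Rg1 X Y a)) :
    e ∈ Bl X Y a ∧ X ≤ e.1 := by
  have ha' : (1:ℤ) ≤ a := by exact_mod_cast ha
  obtain ⟨x, y, _ | _⟩ := e
  · simp only [dE, Set.mem_ofPred_eq, dl_f, Rg1, mem_RE_true] at he
    simp only [Bl, mem_RE_false]
    omega
  · simp only [dE, Set.mem_ofPred_eq, dl_t, Rg1, mem_RE_false] at he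
    simp only [Bl, mem_RE_true]
    omega

theorem DET_rg3 {A X Y : ℤ} {a : ℕ} (ha : 1 ≤ a) (hA : A + 100 * a ≤ X) {e : Edg}
    (he : e ∈ dE (Rg3 X Y a)) :
    e ∈ Bl X Y a ∧ A ≤ e.1 ∧ ¬ (X ≤ e.1 ∧ e.2.1 = Y) ∧
      (Far (src e) (3 * a) (A, A) → True) ∧
      (A + 3 * a ≤ (src e).1 ∧ A + 3 * a ≤ (tgt e).1) ∧
      (Far (src e) (3 * a) (X, Y) ∧ Far (tgt e) (3 * a) (X, Y)) := by
  have ha' : (1:ℤ) ≤ a := by exact_mod_cast ha
  obtain ⟨x, y, _ | _⟩ := e
  · simp only [dE, Set.mem_ofPred_eq, dl_f, Rg3, Finset.mem_union, mem_RE_true] at he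
    simp only [Bl, mem_RE_false, src_mk, tgt_false, Far]
    rcases he with (he | he) | he
    · refine ⟨by omega, by omega, by omega, fun _ => trivial, by omega, ?_, ?_⟩ <;> omega
    · refine ⟨by omega, by omega, by omega, fun _ => trivial, by omega, ?_, ?_⟩ <;> omega
    · refine ⟨by omega, by omega, by omega, fun _ => trivial, by omega, ?_, ?_⟩ <;> omega
  · simp only [dE, Set.mem_ofPred_eq, dl_t, Rg3, Finset.mem_union, mem_RE_false] at he
    simp only [Bl, mem_RE_true, src_mk, tgt_true, Far]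
    rcases he with (he | he) | he
    · refine ⟨by omega, by omega, by omega, fun _ => trivial, by omega, ?_, ?_⟩ <;> omega
    · refine ⟨by omega, by omega, by omega, fun _ => trivial, by omega, ?_, ?_⟩ <;> omega
    · refine ⟨by omega, by omega, by omega, fun _ => trivial, by omega, ?_, ?_⟩ <;> omega

theorem DET_zmod (z : ZMod 2) (h : z ≠ 1) : z = 0 := by
  revert z
  decide

/-- a state which examines `e` is unique if only one side of `e` is on the dual side. -/
theorem DET_once {F : Set Edg} {A y0 X Y : ℤ} {T : ℕ} {hv hf : Vtx → ZMod 2}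
    (hst : Strand F A y0 X Y T) (hs : Side F A y0 X Y T hv hf) {i j : ℕ} (hi : i < T) (hj : j < T)
    (hij : ae (orb F (st0 A y0) i) = ae (orb F (st0 A y0) j))
    (h0 : hf (face (rt (orb F (st0 A y0) j))) = 0) : i = j := by
  have hfi := (hs.strand i hi.le).2
  have hfj := (hs.strand j hj.le).2
  have hface : face (orb F (st0 A y0) i) = face (orb F (st0 A y0) j) := by
    have h1 := p2_dends (orb F (st0 A y0) i)
    have h2 := p2_dends (orb F (st0 A y0) j)
    rw [hij] at h1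
    rcases h1 with ⟨h1, -⟩ | ⟨-, h1⟩ <;> rcases h2 with ⟨h2, h3⟩ | ⟨h2, h3⟩
    · rw [← h1, ← h2]
    · exfalso
      rw [← h1, h2, h0] at hfi
      exact absurd hfi (by decide)
    · exfalso
      rw [← h1, h3, h0] at hfi
      exact absurd hfi (by decide)
    · rw [← h1, ← h3]
  have hne : ∀ e : Edg, dsrc e ≠ dtgt e := by
    rintro ⟨x, y, _ | _⟩ h
    · simp only [dsrc_false, dtgt_mk, Prod.mk.injEq] at h
      omega
    · simp only [dsrc_true, dtgt_mk, Prod.mk.injEq] at h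
      omega
  have hst' : orb F (st0 A y0) i = orb F (st0 A y0) j := by
    apply p16_inj hij
    rw [p16_face, p16_face (orb F (st0 A y0) j), hij] at hface
    generalize p16sd (orb F (st0 A y0) i).2 = b1 at hface
    generalize p16sd (orb F (st0 A y0) j).2 = b2 at hface
    cases b1 <;> cases b2
    · rfl
    · exfalso
      simp only [p16fc, Bool.false_eq_true, if_false, if_true] at hface
      exact hne _ hface
    · exfalso
      simp only [p16fc, Bool.false_eq_true, if_false, if_true] at hface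
      exact hne _ hface.symm
    · rfl
  have key : ∀ i j : ℕ, i < j → j < T → orb F (st0 A y0) i = orb F (st0 A y0) j → False := by
    intro i j hlt hj h
    have h1 : orb F (st0 A y0) T = orb F (st0 A y0) ((T - j) + i) := by
      have h2 : T = (T - j) + j := by omega
      conv_lhs => rw [h2]
      rw [orb_add, orb_add, h]
    have h2 := (hst.stay ((T - j) + i) (by omega)).2
    rw [← h1, hst.tip] at h2
    exact lt_irrefl _ h2
  rcases lt_trichotomy i j with h | h | h
  · exact (key i j h hj hst').elim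
  · exact h
  · exact (key j i h hi hst'.symm).elim

theorem t_DET : St_DET := by
  intro F A y0 X Y T a hv hf H q p ha hst hside hA hH hq hp hP1 hP2
  have ha' : (1:ℤ) ≤ a := by exact_mod_cast ha
  set W : Set Edg := ↑(Exm F (st0 A y0) T ∪ Bl X Y a) with hW
  have hWE : ∀ e ∈ Exm F (st0 A y0) T, e ∈ W := by
    intro e he
    rw [hW, Finset.coe_union]
    exact Or.inl he
  have hWB : ∀ e ∈ Bl X Y a, e ∈ W := by
    intro e he
    rw [hW, Finset.coe_union]
    exact Or.inr he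
  have hWs : ∀ s < T, ae (orb F (st0 A y0) s) ∈ W := fun s hs => hWE _ (mem_Exm.2 ⟨s, hs, rfl⟩)
  -- (1)
  have hfq : hf q = 0 := by
    apply DET_zmod
    intro h
    have := (hside.rightf q.1 q.2 hq.1).1 h
    omega
  have hfp : hf p = 1 := (hside.rightf p.1 p.2 hp.1).2 hp.2
  -- (2)
  have c1 : DReach (W \ F) q p := by
    refine hP1.mono ?_
    rintro e ⟨he, heH⟩
    obtain ⟨h1, h2⟩ := DET_rg1 ha he
    have h3 : e ∉ Exm F (st0 A y0) T := by
      intro h
      have := (exm_loc hst h).2.1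
      omega
    exact ⟨hWB e h1, fun hF => heH (hH e h1 h3 hF)⟩
  -- (3)
  obtain ⟨w, ⟨hw0, e, heG, heX, hew⟩, hqw⟩ := first_attach dsrc dtgt
    (G := dE (Rg3 X Y a) \ H) (Ex := ↑(Exm F (st0 A y0) T)) (P := fun f => hf f = 0)
    (L := {w | hf w = 0 ∧ ∃ e : Edg, e ∈ dE (Rg3 X Y a) \ H ∧ e ∈ Exm F (st0 A y0) T ∧
      (dsrc e = w ∨ dtgt e = w)}) (b := q) (b' := p) (dreach_GR.1 hP2) hfq
    (by simp only [hfp]; decide)
    (by
      intro e he hx
      obtain ⟨h1, h2, h3, -⟩ := DET_rg3 ha hA he.1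
      rw [(hside.free e hx h2 h3).2.1])
    (by
      intro e he hx
      exact ⟨fun h => ⟨h, e, he, hx, Or.inl rfl⟩, fun h => ⟨h, e, he, hx, Or.inr rfl⟩⟩)
  have c2 : DReach (W \ F) q w := by
    refine (dreach_GR.2 hqw).mono ?_
    rintro e' ⟨he, hx, -⟩
    obtain ⟨h1, -⟩ := DET_rg3 ha hA he.1
    exact ⟨hWB e' h1, fun hF => he.2 (hH e' h1 hx hF)⟩
  -- (4)
  obtain ⟨w', ⟨j', hj', hw'⟩, hpw⟩ := first_attach dsrc dtgt
    (G := dE (Rg3 X Y a) \ H) (Ex := ↑(Exm F (st0 A y0) T)) (P := fun f => hf f = 1)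
    (L := {f | ∃ j ≤ T, face (orb F (st0 A y0) j) = f}) (b := p) (b' := q)
    (dreach_GR.1 hP2.symm) hfp (by simp only [hfq]; decide)
    (by
      intro e he hx
      obtain ⟨h1, h2, h3, -⟩ := DET_rg3 ha hA he.1
      rw [(hside.free e hx h2 h3).2.1])
    (by
      intro e he hx
      exact hside.exf e hx)
  have c3 : DReach (W \ F) p w' := by
    refine (dreach_GR.2 hpw).mono ?_
    rintro e' ⟨he, hx, -⟩
    obtain ⟨h1, -⟩ := DET_rg3 ha hA he.1
    exact ⟨hWB e' h1, fun hF => he.2 (hH e' h1 hx hF)⟩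
  have c4 : ∀ s ≤ T, DReach (W \ F) (face (st0 A y0)) (face (orb F (st0 A y0) s)) :=
    fun s hs => orb_dreach hWs hs
  have c5 : DReach (W \ F) (face (st0 A y0)) w := by
    have h1 := c4 j' hj'
    rw [hw'] at h1
    exact h1.trans (c3.symm.trans (c1.symm.trans c2))
  -- (5)
  obtain ⟨j, hj, hje⟩ := mem_Exm.1 heX
  have hfj := (hside.strand j hj.le).2
  have hde := p2_dends (orb F (st0 A y0) j)
  rw [hje] at hde
  have hwrt : w = face (rt (orb F (st0 A y0) j)) := by
    rcases hde with ⟨h1, h2⟩ | ⟨h1, h2⟩ <;> rcases hew with h | h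
    · exfalso
      rw [← h, h1, hfj] at hw0
      exact absurd hw0 (by decide)
    · rw [← h, h2]
    · rw [← h, h1]
    · exfalso
      rw [← h, h2, hfj] at hw0
      exact absurd hw0 (by decide)
  have heF : e ∈ F := by
    by_contra hn
    have h1 := (hside.strand (j + 1) (by omega)).2
    rw [orb_succ, nxt_closed (by rw [hje]; exact hn), ← hwrt, hw0] at h1
    exact absurd h1 (by decide)
  have hnext : orb F (st0 A y0) (j + 1) = mv (orb F (st0 A y0) j) := by
    rw [orb_succ, nxt_open (by rw [hje]; exact heF)]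
  -- (6)
  have honce : ∀ i < T, ae (orb F (st0 A y0) i) = e → i = j := by
    intro i hi h
    exact DET_once hst hside hi hj (by rw [h, hje]) (by rw [← hwrt]; exact hw0)
  obtain ⟨-, -, -, -, hfar1, hfar2⟩ := DET_rg3 ha hA heG.1
  have hends := p2_ends (orb F (st0 A y0) j)
  rw [hje] at hends
  -- (7)
  have hsub : F ∩ (↑(Exm F (st0 A y0) T) \ {e}) ⊆ (F ∩ W) \ {e} := by
    rintro g ⟨h1, h2, h3⟩
    exact ⟨⟨h1, hWE g h2⟩, h3⟩
  refine ⟨e, (orb F (st0 A y0) j).1, (orb F (st0 A y0) (j + 1)).1, (A, y0), (X, Y), (A - 1, y0),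
    (X - 1, Y), ⟨heF, hWE e heX⟩, ?_, ?_, ⟨?_, ?_⟩, ⟨?_, ?_⟩, ⟨?_, ?_⟩, ⟨?_, ?_⟩, ?_⟩
  · rw [hnext]
    exact hends
  · exact orb_reach hWs hj.le
  · have h1 : Reach (F ∩ (↑(Exm F (st0 A y0) T) \ {e})) (st0 A y0).1 (orb F (st0 A y0) j).1 := by
      refine orb_reach (T := j) ?_ le_rfl
      intro s hs
      refine ⟨mem_Exm.2 ⟨s, by omega, rfl⟩, ?_⟩
      intro h
      have := honce s (by omega) h
      omega
    exact (h1.mono hsub).symm
  · have h1 : Reach (F ∩ (↑(Exm F (st0 A y0) T) \ {e})) (orb F (st0 A y0) (j + 1)).1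
        (orb F (orb F (st0 A y0) (j + 1)) (T - (j + 1))).1 := by
      refine orb_reach (T := T - (j + 1)) ?_ le_rfl
      intro s hs
      rw [← orb_add]
      refine ⟨mem_Exm.2 ⟨s + (j + 1), by omega, rfl⟩, ?_⟩
      intro h
      have := honce (s + (j + 1)) (by omega) h
      omega
    rw [← orb_add, show T - (j + 1) + (j + 1) = T by omega, hst.tip] at h1
    exact h1.mono hsub
  · exact ⟨Or.inr rfl, Or.inl rfl⟩
  · exact ⟨Or.inr rfl, Or.inl rfl⟩
  · left
    rcases hends with ⟨h1, -⟩ | ⟨-, h1⟩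
    · rw [← h1]
      have := hfar1.1
      simp only
      omega
    · rw [← h1]
      have := hfar1.2
      simp only
      omega
  · rcases hends with ⟨h1, -⟩ | ⟨-, h1⟩
    · rw [← h1]
      exact hfar2.1
    · rw [← h1]
      exact hfar2.2
  · exact c4 0 (Nat.zero_le _)
  · have := c4 T le_rfl
    rw [hst.tip] at this
    exact this
  · rcases hde with ⟨h1, h2⟩ | ⟨h1, h2⟩
    · rw [h1, h2, ← hwrt]
      exact ⟨c4 j hj.le, c5⟩
    · rw [h1, h2, ← hwrt]
      exact ⟨c5, c4 j hj.le⟩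

end H342N
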