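import Pool.Agent.H342R3.Lim.Fin
import Pool.Agent.H984R3.Per.FinalSharp

/-!
Pinches of the outer boundary of a critical cluster, and double points of curves.
-/

namespace H342N

open H974 H984P H342P Finset

/-- A pinch: an open edge `e` both of whose sides are joined to the face of `σ` by closed dual
paths, such that both ends of `e` are joined in `F \ {e}` to vertices `u1`, `u2` at distance at
least `d`, which touch faces joined to the face of `σ`.  Only the edges of `W` are used. -/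
def Pin (d : ℤ) (σ : St) (W F : Set Edg) : Prop :=
  ∃ (e : Edg) (v1 v2 u1 u2 f1 f2 : Vtx), e ∈ F ∩ W ∧
    ((src e = v1 ∧ tgt e = v2) ∨ (src e = v2 ∧ tgt e = v1)) ∧
    Reach (F ∩ W) σ.1 v1 ∧
    (Reach ((F ∩ W) \ {e}) v1 u1 ∧ Reach ((F ∩ W) \ {e}) v2 u2) ∧
    (Inc u1 f1 ∧ Inc u2 f2) ∧ (Far v1 d u1 ∧ Far v1 d u2) ∧
    (DReach (W \ F) (face σ) f1 ∧ DReach (W \ F) (face σ) f2) ∧
    (DReach (W \ F) (face σ) (dsrc e) ∧ DReach (W \ F) (face σ) (dtgt e))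

/-- A pinch of the outer boundary of the cluster of `v`. -/
def PinV (d : ℤ) (v : Vtx) (F : Set Edg) : Prop :=
  ∃ (e : Edg) (v1 v2 u1 u2 f1 f2 : Vtx), e ∈ F ∧
    ((src e = v1 ∧ tgt e = v2) ∨ (src e = v2 ∧ tgt e = v1)) ∧ Reach F v v1 ∧
    (Reach (F \ {e}) v1 u1 ∧ Reach (F \ {e}) v2 u2) ∧ ¬ Reach (F \ {e}) v1 v2 ∧
    (Inc u1 f1 ∧ Inc u2 f2) ∧ (Far v1 d u1 ∧ Far v1 d u2) ∧
    (Outer F v f1 ∧ Outer F v f2)

/-- Four crossings around the tip `(X, Y)`, in the annulus `4 a .. 8 a`. -/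
def RingEv (X Y : ℤ) (a : ℕ) (H : Finset Edg) : Prop :=
  (LRc (X - 8 * a) (X + 8 * a) (Y - 8 * a) (Y - 4 * a) H ∧
    TBc (X - 8 * a) (X - 4 * a) (Y - 8 * a) (Y + 8 * a) H) ∧
  (LRc (X - 8 * a) (X + 8 * a) (Y + 4 * a) (Y + 8 * a) H ∧
    TBc (X + 4 * a) (X + 8 * a) (Y - 8 * a) (Y + 8 * a) H)

/-- The right part of the annulus. -/
noncomputable def Rg1 (X Y : ℤ) (a : ℕ) : Finset Edg :=
  RE (X + 4 * a) (X + 8 * a) (Y - 8 * a) (Y + 8 * a)

/-- The other three parts. -/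
noncomputable def Rg3 (X Y : ℤ) (a : ℕ) : Finset Edg :=
  (RE (X - 8 * a) (X + 8 * a) (Y - 8 * a) (Y - 4 * a) ∪
    RE (X - 8 * a) (X - 4 * a) (Y - 8 * a) (Y + 8 * a)) ∪
  RE (X - 8 * a) (X + 8 * a) (Y + 4 * a) (Y + 8 * a)

/-- Trials create a pinch with probability at least `δ`. -/
def TrialP (S : Finset Edg) (A y0 : ℤ) (a : ℕ) (δ : ℝ) : Prop :=
  ∀ (k F0 : Finset Edg) (X Y : ℤ) (T : ℕ),
    F0 ⊆ S → k ⊆ S → Strand (↑F0 : Set Edg) A y0 X Y T → A + 100 * a ≤ X →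
    Bl X Y a ⊆ S → ((A - 1, y0, true) : Edg) ∈ k → Exm (↑F0) (st0 A y0) T ⊆ k →
    (∀ e ∈ k, e ∈ Bl X Y a → e ∈ Exm (↑F0) (st0 A y0) T) →
    δ ≤ Pr (fun _ => (1/2:ℝ)) (S \ k) (fun G => Pin (3 * a) (st0 A y0)
        (↑(Exm (↑F0) (st0 A y0) T ∪ Bl X Y a)) (↑((F0 ∩ k) ∪ G)))

/-- The compact set `K` is pinched near `z`: outside the disc of radius `h` around `z` it is
contained in two disjoint closed sets, and both contain points of `K` at distance `≥ ρ` from `z`. -/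
def Pinched (ρ h : ℝ) (K : Set ℂ) : Prop :=
  ∃ (z : ℂ) (P Q : Set ℂ), IsClosed P ∧ IsClosed Q ∧ Disjoint P Q ∧
    K ⊆ (P ∪ Q) ∪ Metric.closedBall z h ∧
    (∃ p ∈ K, p ∈ P ∧ ρ ≤ dist p z) ∧ (∃ q ∈ K, q ∈ Q ∧ ρ ≤ dist q z)

/-- The curve comes back to distance `h`, and both parts between the two times go to distance
`ρ`. -/
def DP (ρ h : ℝ) (c : H342L.Curve) : Prop :=
  ∃ s t : unitInterval, s ≤ t ∧ dist (c.path s) (c.path t) ≤ h ∧
    (∃ u : unitInterval, (s ≤ u ∧ u ≤ t) ∧ ρ ≤ dist (c.path u) (c.path s)) ∧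
    (∃ u : unitInterval, (u ≤ s ∨ t ≤ u) ∧ ρ ≤ dist (c.path u) (c.path s))

/-- The closed curve `c` has a double point: it takes the same value at two times `s < t`, and is
not constant on either of the two arcs between them. -/
def HasDouble (c : H342L.Curve) : Prop :=
  ∃ s t : unitInterval, s < t ∧ c.path s = c.path t ∧
    (∃ u : unitInterval, (s < u ∧ u < t) ∧ c.path u ≠ c.path s) ∧
    (∃ u : unitInterval, (u < s ∨ t < u) ∧ c.path u ≠ c.path s)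

end H342N
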