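import Pool.Agent.H342R3.Pin.Stubs

/-!
Assembly: double points of the subsequential limits.
-/

namespace H342N

open H342L H342P H342P.Plain MeasureTheory TopologicalSpace Filter Topology
open scoped ENNReal NNReal

theorem DP_mono {ρ ρ' h h' : ℝ} {c : Curve} (h1 : ρ' ≤ ρ) (h2 : h ≤ h') (hc : DP ρ h c) :
    DP ρ' h' c := by
  obtain ⟨s, t, hst, hd, ⟨u, hu, hu2⟩, u', hu', hu'2⟩ := hc
  exact ⟨s, t, hst, hd.trans h2, ⟨u, hu, h1.trans hu2⟩, u', hu', h1.trans hu'2⟩

/-- The closed curves form a closed set. -/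
theorem isClosed_loop : IsClosed {c : Curve | c.path 0 = c.path 1} := by
  rw [← isOpen_compl_iff, Metric.isOpen_iff]
  intro c hc
  have hc' : c.path 0 ≠ c.path 1 := hc
  have hpos : 0 < dist (c.path 0) (c.path 1) := dist_pos.mpr hc'
  refine ⟨dist (c.path 0) (c.path 1) / 2, by positivity, fun c' hcc' heq => ?_⟩
  have heq' : c'.path 0 = c'.path 1 := heq
  rw [Metric.mem_ball, Curve.dist_def, cdist_eq] at hcc'
  obtain ⟨φ, hφ⟩ := exists_lt_of_ciInf_lt hcc'
  have e0 := ContinuousMap.dist_apply_le_dist (f := c'.path) (g := rep c.path φ) 0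
  have e1 := ContinuousMap.dist_apply_le_dist (f := c'.path) (g := rep c.path φ) 1
  have p0 : φ 0 = 0 := φ.map_bot
  have p1 : φ 1 = 1 := φ.map_top
  rw [rep_apply, p0] at e0
  rw [rep_apply, p1, ← heq'] at e1
  have := dist_triangle_left (c.path 0) (c.path 1) (c'.path 0)
  linarith

section
variable (hP : St_PAR) (hL : St_PLA) (hC : St_CUR) (hO : St_CLO) (hD : St_DBL)
  {sel : (n : ℕ) → Finset Edge → ℤ × ℤ}
  (hsel : ∀ n F, 0 < n → F ⊆ edges n → Largest n F (sel n F))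
  {γ : (n : ℕ) → Finset Edge → Curve}
  (hγ : ∀ n F, 0 < n → F ⊆ edges n → Set.range (γ n F).path = outerBoundary n F (sel n F))
  (hγ0 : ∀ n F, 0 < n → F ⊆ edges n → (γ n F).path 0 = (γ n F).path 1)
  {k : ℕ → ℕ} (hk : Tendsto k atTop atTop) {μ : ProbabilityMeasure Curve}
  (hμ : Tendsto (fun i => lawOf (k i) (γ (k i))) atTop (𝓝 μ))

include hγ0 hk hμ in
theorem fin_loop : ∀ᵐ c : Curve ∂(μ : Measure Curve), c.path 0 = c.path 1 := by
  have hopen : IsOpen {c : Curve | c.path 0 = c.path 1}ᶜ := isClosed_loop.isOpen_compl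
  have h0 : (μ : Measure Curve) {c : Curve | c.path 0 = c.path 1}ᶜ = 0 := by
    apply le_antisymm _ bot_le
    refine (ProbabilityMeasure.le_liminf_measure_open_of_tendsto hμ hopen).trans ?_
    refine liminf_le_of_frequently_le (Eventually.frequently ?_)
    have hev : ∀ᶠ i in atTop, 1 ≤ k i := tendsto_atTop.mp hk _
    filter_upwards [hev] with i hi
    rw [lawOf_apply _ _ hopen.measurableSet]
    have : prob (k i) (fun F => γ (k i) F ∈ {c : Curve | c.path 0 = c.path 1}ᶜ) ≤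
        prob (k i) (fun _ => ¬ True) := by
      apply prob_mono
      intro F hF hbad
      exact absurd (hγ0 (k i) F hi hF) hbad
    rw [prob_not, prob_true, sub_self] at this
    rw [ENNReal.ofReal_of_nonpos this]
    exact le_rfl
  filter_upwards [compl_mem_ae_iff.mpr h0] with c hc
  by_contra hcon
  exact hc hcon

include hP hL hC hO hsel hγ hγ0 hk hμ in
theorem fin_DP {ε : ℝ} (hε : 0 < ε) : ∃ ρ : ℝ, 0 < ρ ∧ ∀ h : ℝ, 0 < h →
    (μ : Measure Curve) {c : Curve | DP ρ h c}ᶜ ≤ ENNReal.ofReal ε := by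
  obtain ⟨ρ, hρ, n0, hn0⟩ := hP ε hε
  refine ⟨ρ / 2, by positivity, fun h hh => ?_⟩
  have hopen : IsOpen {c : Curve | DP (ρ / 2) h c}ᶜ := (hO (ρ / 2) h).isOpen_compl
  refine (ProbabilityMeasure.le_liminf_measure_open_of_tendsto hμ hopen).trans ?_
  refine liminf_le_of_frequently_le (Eventually.frequently ?_)
  obtain ⟨n1, hn1⟩ := exists_nat_gt (2 / h)
  obtain ⟨n2, hn2⟩ := exists_nat_gt (2 / ρ)
  have hev : ∀ᶠ i in atTop, max (max n0 n1) (max n2 1) ≤ k i := tendsto_atTop.mp hk _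
  filter_upwards [hev] with i hi
  rw [max_le_iff, max_le_iff, max_le_iff] at hi
  obtain ⟨⟨hi0, hi1⟩, hi2, hi3⟩ := hi
  rw [lawOf_apply _ _ hopen.measurableSet]
  refine ENNReal.ofReal_le_ofReal ?_
  have hkpos : (0:ℝ) < k i := by exact_mod_cast hi3
  have hk1 : (n1 : ℝ) ≤ k i := by exact_mod_cast hi1
  have hk2 : (n2 : ℝ) ≤ k i := by exact_mod_cast hi2
  refine le_trans (prob_le_of_pr ?_) (hn0 (k i) hi0)
  intro F hF hbad
  refine ⟨sel (k i) F, isMax_of_largest (hsel _ _ hi3 hF), fun hcon => hbad ?_⟩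
  obtain ⟨d, hd, hpin⟩ := hcon
  have h1 := hL (k i) F (sel (k i) F) d hi3 hF hpin
  rw [← hγ (k i) F hi3 hF] at h1
  have h2 := hC (γ (k i) F) (d / (k i : ℝ)) (1 / (k i : ℝ)) (hγ0 _ _ hi3 hF) (by positivity) h1
  refine DP_mono ?_ ?_ h2
  · have e1 : ρ ≤ (d : ℝ) / (k i : ℝ) := by
      rw [le_div_iff₀ hkpos]
      exact hd
    have e2 : 1 / (k i : ℝ) ≤ ρ / 2 := by
      rw [div_le_iff₀ hkpos]
      rw [div_lt_iff₀ hρ] at hn2
      nlinarith
    linarith
  · have e2 : 2 * (1 / (k i : ℝ)) ≤ h := by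
      rw [← mul_div_assoc, mul_one, div_le_iff₀ hkpos]
      rw [div_lt_iff₀ hh] at hn1
      nlinarith
    exact e2

include hP hL hC hO hD hsel hγ hγ0 hk hμ in
theorem fin_double : ∀ᵐ c : Curve ∂(μ : Measure Curve), HasDouble c := by
  have key : ∀ ε : ℝ, 0 < ε → (μ : Measure Curve) {c : Curve | ¬ HasDouble c} ≤
      ENNReal.ofReal ε := by
    intro ε hε
    obtain ⟨ρ, hρ, hmeas⟩ := fin_DP hP hL hC hO hsel hγ hγ0 hk hμ hε
    have hsub : {c : Curve | ¬ HasDouble c} ⊆ ⋃ j : ℕ, {c : Curve | DP ρ (1 / ((j:ℝ) + 1)) c}ᶜ := by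
      intro c hc
      by_contra hcon
      apply hc
      apply hD c ρ hρ
      intro h hh
      obtain ⟨j, hj⟩ := exists_nat_one_div_lt hh
      have : c ∈ {c : Curve | DP ρ (1 / ((j:ℝ) + 1)) c} := by
        by_contra hcc
        exact hcon (Set.mem_iUnion.mpr ⟨j, hcc⟩)
      exact DP_mono le_rfl hj.le this
    refine (measure_mono hsub).trans ?_
    have hmono : Monotone (fun j : ℕ => {c : Curve | DP ρ (1 / ((j:ℝ) + 1)) c}ᶜ) := by
      intro i j hij c hc hcon
      apply hc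
      have : (i:ℝ) ≤ j := by exact_mod_cast hij
      exact DP_mono le_rfl (one_div_le_one_div_of_le (by positivity) (by linarith)) hcon
    rw [hmono.measure_iUnion]
    exact iSup_le fun j => hmeas _ (by positivity)
  have h0 : (μ : Measure Curve) {c : Curve | ¬ HasDouble c} = 0 := by
    apply le_antisymm _ bot_le
    apply ENNReal.le_of_forall_pos_le_add
    intro ε hε _
    rw [bot_eq_zero, zero_add]
    have := key ε (by exact_mod_cast hε)
    rwa [ENNReal.ofReal_coe_nnreal] at this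
  exact h0

end

end H342N
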