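import Pool.Agent.H342R3.Pin.Stubs
import Pool.Agent.H984R3.Per.Iter2

/-!
Task ITE: iteration of the trials which create pinches.
-/

namespace H342N

open H974 H984P H342P Finset

/-- the trial at the `i`-th tip fails -/
def ITE_Fl (A y0 : ℤ) (a i : ℕ) (F : Set Edg) : Prop :=
  ¬ Pin (3 * a) (st0 A y0) (↑(Exm F (st0 A y0) (tT A y0 F (A + 121 * a * i)) ∪
    Bl (A + 121 * a * i) (tY A y0 F (A + 121 * a * i)) a)) F

/-- crossing of `i` slabs, the trials before fail -/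
def ITE_EE (A y0 H : ℤ) (a i : ℕ) (F : Set Edg) : Prop :=
  CR A y0 H a i F ∧ ∀ j, 1 ≤ j → j < i → ITE_Fl A y0 a j F

theorem ITE_pin_congr {d : ℤ} {σ : St} {W F G : Set Edg} (h : ∀ e ∈ W, (e ∈ F ↔ e ∈ G)) :
    Pin d σ W F ↔ Pin d σ W G := by
  have e1 : F ∩ W = G ∩ W := by
    ext e
    constructor
    · rintro ⟨h1, h2⟩; exact ⟨(h e h2).mp h1, h2⟩
    · rintro ⟨h1, h2⟩; exact ⟨(h e h2).mpr h1, h2⟩
  have e2 : W \ F = W \ G := by
    ext e
    constructor
    · rintro ⟨h1, h2⟩; exact ⟨h1, fun h3 => h2 ((h e h1).mpr h3)⟩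
    · rintro ⟨h1, h2⟩; exact ⟨h1, fun h3 => h2 ((h e h1).mp h3)⟩
  unfold Pin
  rw [e1, e2]

theorem ITE_pin_mono {d : ℤ} {σ : St} {W F : Set Edg} (h : Pin d σ W F) :
    Pin d σ Set.univ F := by
  obtain ⟨e, v1, v2, u1, u2, f1, f2, h1, h2, h3, ⟨h4, h5⟩, h6, h7, ⟨h8, h9⟩, h10, h11⟩ := h
  have m1 : F ∩ W ⊆ F ∩ Set.univ := fun x hx => ⟨hx.1, trivial⟩
  have m2 : (F ∩ W) \ {e} ⊆ (F ∩ Set.univ) \ {e} := fun x hx => ⟨m1 hx.1, hx.2⟩
  have m3 : W \ F ⊆ Set.univ \ F := fun x hx => ⟨trivial, hx.2⟩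
  exact ⟨e, v1, v2, u1, u2, f1, f2, m1 h1, h2, h3.mono m1, ⟨h4.mono m2, h5.mono m2⟩, h6, h7,
    ⟨h8.mono m3, h9.mono m3⟩, h10.mono m3, h11.mono m3⟩

section

variable {S : Finset Edg} {A y0 H : ℤ} {a K : ℕ}

theorem ITE_EE_congr (ha : 1 ≤ a) (hS : BB A y0 H a K ⊆ S) {i : ℕ} (hi : 1 ≤ i) (hiK : i ≤ K)
    {F G : Finset Edg} (hFG : F ∩ H984P.KK S A y0 H a i F = G ∩ H984P.KK S A y0 H a i F)
    (h : ITE_EE A y0 H a i (↑F : Set Edg)) : ITE_EE A y0 H a i (↑G : Set Edg) := by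
  obtain ⟨hc, hf⟩ := h
  obtain ⟨g1, g2, g3⟩ := it_agree ha hS hi hiK hc hFG
  refine ⟨(it_same ha hi le_rfl hc (by exact_mod_cast g1)
    (fun e he => by exact_mod_cast g2 e he)).2.2.1, ?_⟩
  intro j hj hji
  obtain ⟨s1, s2, _, s4⟩ := it_same ha hj hji.le hc (G := (↑G : Set Edg)) (by exact_mod_cast g1)
    (fun e he => by exact_mod_cast g2 e he)
  unfold ITE_Fl
  rw [s4, s2]
  have h5 := hf j hj hji
  unfold ITE_Fl at h5
  rwa [ITE_pin_congr (G := (↑G : Set Edg))] at h5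
  intro e he
  rw [Finset.mem_coe, Finset.mem_union] at he
  rcases he with he | he
  · have := g2 e (it_exm_mono (it_down ha hj hji.le hc).2 he)
    exact_mod_cast this
  · have := g3 j hj hji e he
    exact_mod_cast this

theorem ITE_step (ha : 1 ≤ a) (hS : BB A y0 H a K ⊆ S) {i : ℕ} {δ : ℝ} (hi : 1 ≤ i) (hiK : i ≤ K)
    (htr : TrialP S A y0 a δ) :
    Pr (fun _ => (1/2:ℝ)) S (fun F => ITE_EE A y0 H a i (↑F) ∧ ITE_Fl A y0 a i (↑F)) ≤
      (1 - δ) * Pr (fun _ => (1/2:ℝ)) S (fun F => ITE_EE A y0 H a i (↑F)) := by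
  have hp : Ok (fun _ : Edg => (1/2:ℝ)) := fun _ => ⟨by norm_num, by norm_num⟩
  apply markov_gen hp (K := H984P.KK S A y0 H a i) (fun F _ => it_KK_sub F) (it_stop ha hS hi hiK)
  · intro F G _ _ hFG h
    exact ITE_EE_congr ha hS hi hiK hFG h
  · intro F0 hF0 hE
    have hc := hE.1
    have hKS : H984P.KK S A y0 H a i F0 ⊆ S := it_KK_sub F0
    obtain ⟨b1, b2, b3⟩ := it_box ha hi hiK hc
    have ha' : (1:ℤ) ≤ a := by exact_mod_cast ha
    have hi' : (1:ℤ) ≤ i := by exact_mod_cast hi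
    have hai : (a:ℤ) ≤ a * i := by nlinarith
    have hKK : H984P.KK S A y0 H a i F0 = (insert (A - 1, y0, true)
        (Exm (↑F0 : Set Edg) (st0 A y0) (tT A y0 ↑F0 (A + 121 * a * i)) ∪
        (Finset.Ico 1 i).biUnion
          (fun j => Bl (A + 121 * a * j) (tY A y0 ↑F0 (A + 121 * a * j)) a))) ∩ S := by
      unfold H984P.KK
      rw [if_pos hc]
    have htr' := htr (H984P.KK S A y0 H a i F0) F0 _ _ _ hF0 hKS hc.1 (by nlinarith) (b3.trans hS)
      (by
        rw [hKK, Finset.mem_inter]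
        exact ⟨Finset.mem_insert_self _ _, hS b1⟩)
      (by
        intro e he
        rw [hKK, Finset.mem_inter]
        exact ⟨Finset.mem_insert_of_mem (Finset.mem_union_left _ he), hS (b2 he)⟩)
      (by
        intro e he heB
        rw [hKK, Finset.mem_inter, Finset.mem_insert, Finset.mem_union] at he
        rcases he.1 with he | he | he
        · exfalso
          rw [he] at heB
          unfold Bl at heB
          rw [mem_RE_true] at heB
          nlinarith [heB.1]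
        · exact he
        · exfalso
          rw [Finset.mem_biUnion] at he
          obtain ⟨j, hj, he⟩ := he
          rw [Finset.mem_Ico] at hj
          have hji : (j:ℤ) + 1 ≤ i := by exact_mod_cast hj.2
          have h6 : (a:ℤ) * j + a ≤ a * i := by nlinarith
          obtain ⟨x, y, b⟩ := e
          unfold Bl at he heB
          cases b
          · rw [mem_RE_false] at he heB
            have q1 := he.2.1
            have q2 := heB.1
            nlinarith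
          · rw [mem_RE_true] at he heB
            have q1 := he.2.1
            have q2 := heB.1
            nlinarith)
    have hev : ∀ G, G ⊆ S \ H984P.KK S A y0 H a i F0 →
        (ITE_Fl A y0 a i (↑((F0 ∩ H984P.KK S A y0 H a i F0) ∪ G)) ↔
          ¬ (Pin (3 * a) (st0 A y0)
            (↑(Exm (↑F0) (st0 A y0) (tT A y0 ↑F0 (A + 121 * a * i)) ∪
              Bl (A + 121 * a * i) (tY A y0 ↑F0 (A + 121 * a * i)) a))
            (↑((F0 ∩ H984P.KK S A y0 H a i F0) ∪ G)))) := by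
      intro G hG
      have hFG : F0 ∩ H984P.KK S A y0 H a i F0 =
          ((F0 ∩ H984P.KK S A y0 H a i F0) ∪ G) ∩ H984P.KK S A y0 H a i F0 := by
        ext e
        simp only [Finset.mem_inter, Finset.mem_union]
        constructor
        · rintro ⟨h1, h2⟩; exact ⟨Or.inl ⟨h1, h2⟩, h2⟩
        · rintro ⟨h1 | h1, h2⟩
          · exact h1
          · exact absurd h2 (Finset.mem_sdiff.mp (hG h1)).2
      obtain ⟨g1, g2, _⟩ := it_agree ha hS hi hiK hc hFG
      obtain ⟨s1, s2, _, s4⟩ := it_same ha hi le_rfl hc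
        (G := (↑((F0 ∩ H984P.KK S A y0 H a i F0) ∪ G) : Set Edg)) (Finset.mem_coe.mpr g1)
        (fun e he => by rw [Finset.mem_coe, Finset.mem_coe]; exact g2 e he)
      unfold ITE_Fl
      rw [s4, s2]
    rw [Pr_congr hev, Pr_not]
    linarith

theorem ITE_EE_bound {δ : ℝ} (ha : 1 ≤ a) (hδ1 : δ ≤ 1) (hS : BB A y0 H a K ⊆ S)
    (htr : TrialP S A y0 a δ) : ∀ i : ℕ, i + 1 ≤ K →
      Pr (fun _ => (1/2:ℝ)) S (fun F => ITE_EE A y0 H a (i+1) (↑F)) ≤
        (1 - δ) ^ i * Pr (fun _ => (1/2:ℝ)) S (fun F => Long' A y0 H a 1 (↑F)) := by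
  have hp : Ok (fun _ : Edg => (1/2:ℝ)) := fun _ => ⟨by norm_num, by norm_num⟩
  intro i
  induction i with
  | zero =>
    intro _
    rw [pow_zero, one_mul]
    apply Pr_mono hp
    intro F _ hE
    exact ⟨_, _, by simpa using hE.1.1, by simpa using hE.1.2⟩
  | succ i ih =>
    intro h1
    have h3 : 0 ≤ 1 - δ := by linarith
    have h4 : Pr (fun _ => (1/2:ℝ)) S (fun F => ITE_EE A y0 H a (i+1+1) (↑F)) ≤
        Pr (fun _ => (1/2:ℝ)) S
          (fun F => ITE_EE A y0 H a (i+1) (↑F) ∧ ITE_Fl A y0 a (i+1) (↑F)) := by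
      refine Pr_mono hp fun F _ hE => ?_
      exact ⟨⟨(it_down ha (by omega) (by omega) hE.1).1, fun j hj hji => hE.2 j hj (by omega)⟩,
        hE.2 (i+1) (by omega) (by omega)⟩
    refine h4.trans ((ITE_step ha hS (by omega) (by omega) htr).trans ?_)
    calc (1 - δ) * _ ≤ (1 - δ) * ((1 - δ) ^ i *
          Pr (fun _ => (1/2:ℝ)) S (fun F => Long' A y0 H a 1 (↑F))) :=
          mul_le_mul_of_nonneg_left (ih (by omega)) h3
      _ = _ := by ring

end

theorem t_ITE : St_ITE := by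
  intro S A y0 H a K δ ha hK _ hδ1 hS htr
  have hp : Ok (fun _ : Edg => (1/2:ℝ)) := fun _ => ⟨by norm_num, by norm_num⟩
  have hS' : BB A y0 H a K ⊆ S := hS
  obtain ⟨K', rfl⟩ : ∃ K', K = K' + 1 := ⟨K - 1, by omega⟩
  have h3 : 0 ≤ 1 - δ := by linarith
  have h5 : Pr (fun _ => (1/2:ℝ)) S
      (fun F => ITE_EE A y0 H a (K'+1) (↑F) ∧ ITE_Fl A y0 a (K'+1) (↑F)) ≤
      (1 - δ) ^ (K' + 1) * Pr (fun _ => (1/2:ℝ)) S (fun F => Long' A y0 H a 1 (↑F)) := by
    refine (ITE_step ha hS' (by omega) le_rfl htr).trans ?_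
    calc (1 - δ) * _ ≤ (1 - δ) * ((1 - δ) ^ K' *
          Pr (fun _ => (1/2:ℝ)) S (fun F => Long' A y0 H a 1 (↑F))) :=
          mul_le_mul_of_nonneg_left (ITE_EE_bound ha hδ1 hS' htr K' le_rfl) h3
      _ = _ := by ring
  refine le_trans (Pr_mono hp fun F _ hF => ?_) h5
  obtain ⟨hL, hcn⟩ := hF
  have hc := it_long hL
  have hfail : ∀ j, 1 ≤ j → j ≤ K' + 1 → ITE_Fl A y0 a j (↑F) :=
    fun j _ _ hpin => hcn (ITE_pin_mono hpin)
  exact ⟨⟨hc, fun j hj hji => hfail j hj hji.le⟩, hfail (K' + 1) (by omega) le_rfl⟩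

end H342N
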