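import Pool.Agent.H342R3.Pin.Stubs
import Pool.Agent.H984R3.Per.LowSharp

namespace H342N

open H974 H984P H342P Finset

theorem LOW_back {d : ℤ} {F : Set Edg} {σ σ' : St} (h1 : Reach F σ.1 σ'.1)
    (h2 : DReach Fᶜ (face σ) (face σ')) (h : Pin d σ' Set.univ F) : Pin d σ Set.univ F := by
  obtain ⟨e, v1, v2, u1, u2, f1, f2, he, hends, hr, hrr, hinc, hfar, ⟨hf1, hf2⟩, hs1, hs2⟩ := h
  rw [Set.compl_eq_univ_sdiff] at h2
  refine ⟨e, v1, v2, u1, u2, f1, f2, he, hends, ?_, hrr, hinc, hfar, ⟨h2.trans hf1, h2.trans hf2⟩,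
    h2.trans hs1, h2.trans hs2⟩
  rw [Set.inter_univ] at hr ⊢
  exact h1.trans hr

theorem t_LOW (hI : St_ITE) (hRot : St_ROT) : St_LOW := by
  obtain ⟨C, hC, hcount⟩ := strand_count_sum
  refine ⟨8 * C, by positivity, ?_⟩
  intro n a K δ R ha hK hδ0 hδ1 hok hR
  have ha1 : 1 ≤ a := by omega
  have hw : 0 ≤ (1 - δ) ^ K := pow_nonneg (by linarith) _
  have hR1 : 1 ≤ R := by
    have : (0:ℤ) ≤ 121 * a * K := by positivity
    omega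
  have h := LS_four (n := n) (B := 2 * C * ((n:ℝ) / a + 1) ^ 2 * (1 - δ) ^ K) (R := R)
    (E := fun b c F => ∃ i ∈ Finset.range (n / a + 2), ∃ y0 ∈ Finset.Icc c (c + n),
      RE ((b + i * a) - 60 * a) ((b + i * a) + 121 * a * K + 60 * a) (y0 - 2 * R - 60 * a)
        (y0 + 2 * R + 60 * a) ⊆ RE b (b + n) c (c + n) ∧
      (Long' (b + i * a) y0 (2 * R) a K (↑F) ∧
        ¬ Pin (3 * a) (st0 (b + i * a) y0) Set.univ (↑F)))
    (P := fun b c F σ t => inR (b + 3 * R + 60 * a) (b + n - 3 * R - 60 * a) (c + 3 * R + 60 * a)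
      (c + n - 3 * R - 60 * a) σ.1 ∧
      (∀ s < t, ¬ Far σ.1 R (orb (↑F) σ s).1) ∧ ¬ Pin (3 * a) σ Set.univ (↑F))
    (G := fun F => ∃ σ : St,
      inR (3 * R + 60 * a) (n - 3 * R - 60 * a) (3 * R + 60 * a) (n - 3 * R - 60 * a) σ.1 ∧
      (∃ t, Far σ.1 R (orb (↑F) σ t).1) ∧ ¬ Pin (3 * a) σ Set.univ (↑F)) ?_ ?_ ?_ ?_
  · refine h.trans (le_of_eq ?_)
    ring
  · intro b c
    refine LS_sum (K := K) (R := R) hw ha hC hcount
      (fun A y0 F => Long' A y0 (2 * R) a K (↑F) ∧ ¬ Pin (3 * a) (st0 A y0) Set.univ (↑F)) ?_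
    intro A y0 hS
    exact hI _ A y0 (2 * R) a K δ ha1 hK hδ0 hδ1 hS (hok b c A y0)
  · rintro b c F σ t ⟨h1, h2, h3⟩
    refine ⟨?_, ?_, fun h4 => h3 (hRot _ _ _ h4)⟩
    · simp only [inR, rS, rV, Equiv.coe_fn_mk] at h1 ⊢
      omega
    · intro s hs
      rw [rot_orb]
      exact fun hh => h2 s hs (LT_far.1 hh)
  · rintro b c F σ t ⟨hin, hf, hM⟩ hx
    obtain ⟨i, hi, y0, hy0, hS, Y, T, s0, hs0, hst, hT, hy⟩ := LS_det ha1 hK hR hin hf hx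
    refine ⟨i, hi, y0, hy0, hS, ⟨Y, T, hst, hy⟩, fun h4 => hM ?_⟩
    obtain ⟨h1, h2⟩ := LT_orb (F := ↑F) (σ := σ) s0
    rw [hs0] at h1 h2
    exact LOW_back h1 h2 h4
  · rintro F ⟨σ, hin, hfar, hM⟩
    obtain ⟨t, ht, hex⟩ := first_far hR1 hfar
    exact ⟨σ, t, ⟨by simpa using hin, ht, hM⟩, hex⟩

end H342N
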