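import Pool.Agent.H342R3.Pin.Stubs
import Pool.Agent.H342R3.Lim.TOPA
import Pool.Agent.H342R3.Lim.TOPB
import Pool.Agent.H342R3.Lim.CPT

/-! Task N-PLA (helper121): a pinched cluster has a pinched outer boundary. -/

namespace H342N

open H974 H984P H342P Finset

/-- The lower left lattice point of a point of the body is in the cluster. -/
theorem PLA_floor {n : ℕ} (hn : 0 < n) {F : Finset Plain.Edge} {u : ℤ × ℤ} {z : ℂ}
    (hz : z ∈ H342L.body n F u) :
    Reach (↑F : Set Edg) u (⌊(n : ℝ) * z.re⌋, ⌊(n : ℝ) * z.im⌋) := by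
  rcases H342L.TOPA_body hn hz with ⟨w, hw, h1, h2⟩ | ⟨e, he, h⟩
  · rw [h1, h2, Int.floor_intCast, Int.floor_intCast]
    exact (Plain.mem_cluster F u w).1 hw
  · have hsrc : Reach (↑F : Set Edg) u (src e) := (Plain.mem_cluster F u _).1 he.2
    have htgt : Reach (↑F : Set Edg) u (tgt e) :=
      Relation.ReflTransGen.tail hsrc ⟨e, he.1, Or.inl ⟨rfl, rfl⟩⟩
    obtain ⟨x, y, t⟩ := e
    rcases h with ⟨ht, h1, h2, h3⟩ | ⟨ht, h1, h2, h3⟩
    · simp only at ht h1 h2 h3
      subst ht
      rw [h1, Int.floor_intCast]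
      rcases h3.lt_or_eq with h3 | h3
      · have : ⌊(n : ℝ) * z.re⌋ = x := Int.floor_eq_iff.2 ⟨h2, h3⟩
        rw [this]
        exact hsrc
      · have : ⌊(n : ℝ) * z.re⌋ = x + 1 := by
          rw [h3, Int.floor_add_one, Int.floor_intCast]
        rw [this]
        exact htgt
    · simp only at ht h1 h2 h3
      subst ht
      rw [h1, Int.floor_intCast]
      rcases h3.lt_or_eq with h3 | h3
      · have : ⌊(n : ℝ) * z.im⌋ = y := Int.floor_eq_iff.2 ⟨h2, h3⟩
        rw [this]
        exact hsrc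
      · have : ⌊(n : ℝ) * z.im⌋ = y + 1 := by
          rw [h3, Int.floor_add_one, Int.floor_intCast]
        rw [this]
        exact htgt

theorem PLA_disj {n : ℕ} (hn : 0 < n) {F : Finset Plain.Edge} {u v : ℤ × ℤ}
    (h : ¬ Reach (↑F : Set Edg) u v) : Disjoint (H342L.body n F u) (H342L.body n F v) := by
  rw [Set.disjoint_left]
  intro z h1 h2
  exact h ((PLA_floor hn h1).trans (PLA_floor hn h2).symm)

theorem PLA_split {F : Set Edg} {e : Edg} {v1 v2 w : Vtx}
    (hv : (src e = v1 ∧ tgt e = v2) ∨ (src e = v2 ∧ tgt e = v1)) (h : Reach F v1 w) :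
    Reach (F \ {e}) v1 w ∨ Reach (F \ {e}) v2 w := by
  induction h with
  | refl => exact Or.inl Relation.ReflTransGen.refl
  | @tail a b _ hab ih =>
    obtain ⟨g, hg, hgab⟩ := hab
    by_cases hge : g = e
    · subst hge
      have hb : b = v1 ∨ b = v2 := by
        rcases hgab with ⟨h1, h2⟩ | ⟨h1, h2⟩ <;> rcases hv with ⟨h3, h4⟩ | ⟨h3, h4⟩
        · right; rw [← h2, h4]
        · left; rw [← h2, h4]
        · left; rw [← h1, h3]
        · right; rw [← h1, h3]
      rcases hb with hb | hb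
      · rw [hb]; exact Or.inl Relation.ReflTransGen.refl
      · rw [hb]; exact Or.inr Relation.ReflTransGen.refl
    · have hadj : Adj (F \ {e}) a b := ⟨g, ⟨hg, hge⟩, hgab⟩
      rcases ih with ih | ih
      · exact Or.inl (ih.tail hadj)
      · exact Or.inr (ih.tail hadj)

theorem PLA_dist_re (n : ℕ) (u w : ℤ × ℤ) :
    |(u.1 : ℝ) - w.1| / n ≤ dist (H342L.pt n u) (H342L.pt n w) := by
  rw [dist_eq_norm]
  refine le_trans (le_of_eq ?_) (Complex.abs_re_le_norm _)
  rw [Complex.sub_re]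
  simp only [H342L.pt]
  rw [← sub_div, abs_div, Nat.abs_cast]

theorem PLA_dist_im (n : ℕ) (u w : ℤ × ℤ) :
    |(u.2 : ℝ) - w.2| / n ≤ dist (H342L.pt n u) (H342L.pt n w) := by
  rw [dist_eq_norm]
  refine le_trans (le_of_eq ?_) (Complex.abs_im_le_norm _)
  rw [Complex.sub_im]
  simp only [H342L.pt]
  rw [← sub_div, abs_div, Nat.abs_cast]

theorem PLA_far {n : ℕ} {u w : Vtx} {d : ℤ} (h : Far w d u) :
    (d : ℝ) / n ≤ dist (H342L.pt n u) (H342L.pt n w) := by
  have hn : (0 : ℝ) ≤ n := Nat.cast_nonneg n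
  have h1 := PLA_dist_re n u w
  have h2 := PLA_dist_im n u w
  rcases h with h | h | h | h
  · refine le_trans (div_le_div_of_nonneg_right ?_ hn) h1
    have h' : (u.1 : ℝ) ≤ w.1 - d := by exact_mod_cast h
    rw [abs_sub_comm]
    exact le_trans (by linarith) (le_abs_self _)
  · refine le_trans (div_le_div_of_nonneg_right ?_ hn) h1
    have h' : (w.1 : ℝ) + d ≤ u.1 := by exact_mod_cast h
    exact le_trans (by linarith) (le_abs_self _)
  · refine le_trans (div_le_div_of_nonneg_right ?_ hn) h2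
    have h' : (u.2 : ℝ) ≤ w.2 - d := by exact_mod_cast h
    rw [abs_sub_comm]
    exact le_trans (by linarith) (le_abs_self _)
  · refine le_trans (div_le_div_of_nonneg_right ?_ hn) h2
    have h' : (w.2 : ℝ) + d ≤ u.2 := by exact_mod_cast h
    exact le_trans (by linarith) (le_abs_self _)

theorem PLA_edge (n : ℕ) (e : Edg) :
    dist (H342L.pt n (Plain.fst e)) (H342L.pt n (Plain.snd e)) ≤ 1 / n := by
  rw [dist_eq_norm]
  refine (Complex.norm_le_abs_re_add_abs_im _).trans ?_
  obtain ⟨x, y, t⟩ := e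
  rw [Complex.sub_re, Complex.sub_im]
  cases t
  · simp only [H342L.pt, Plain.fst, Plain.snd, Bool.false_eq_true, if_false, sub_self, abs_zero,
      zero_add]
    rw [← sub_div, abs_div, Nat.abs_cast]
    push_cast
    rw [sub_add_cancel_left, abs_neg, abs_one]
  · simp only [H342L.pt, Plain.fst, Plain.snd, if_true, sub_self, abs_zero,
      add_zero]
    rw [← sub_div, abs_div, Nat.abs_cast]
    push_cast
    rw [sub_add_cancel_left, abs_neg, abs_one]

theorem PLA_seg {n : ℕ} {e : Edg} {v : Vtx} (hv : v = src e ∨ v = tgt e) :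
    H342L.seg n e ⊆ Metric.closedBall (H342L.pt n v) (1 / n) := by
  have h0 : (0 : ℝ) ≤ 1 / n := by positivity
  unfold H342L.seg
  refine (convex_closedBall _ _).segment_subset ?_ ?_
  · rw [Metric.mem_closedBall]
    rcases hv with hv | hv
    · rw [hv, ← Plain.fst_eq, dist_self]; exact h0
    · rw [hv, ← Plain.snd_eq]; exact PLA_edge n e
  · rw [Metric.mem_closedBall]
    rcases hv with hv | hv
    · rw [hv, ← Plain.fst_eq, dist_comm]; exact PLA_edge n e
    · rw [hv, ← Plain.snd_eq, dist_self]; exact h0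

theorem PLA_bdry {n : ℕ} (hn : 0 < n) {F : Finset Plain.Edge} (hF : F ⊆ Plain.edges n)
    {v u f : ℤ × ℤ} {e : Plain.Edge} (he : e ∈ Plain.clusterEdges F v)
    (hu : Reach (↑F : Set Edg) v u) (hi : Inc u f) (hf : Outer (↑F : Set Edg) v f) :
    H342L.pt n u ∈ H342L.outerBoundary n F v := by
  have hbody : H342L.pt n u ∈ H342L.body n F v := by
    left
    exact Set.mem_biUnion (x := u) ((Plain.mem_cluster F v u).2 hu) (Set.mem_singleton _)
  have hcl : H342L.pt n u ∈ closure (H342L.TOPA_Q n f) := by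
    obtain ⟨h1, h2⟩ := H342L.TOPA_pt hn u
    unfold Inc at hi
    apply H342L.TOPA_closure hn f
    · rw [h1]; exact_mod_cast (by omega : f.1 ≤ u.1)
    · rw [h1]; exact_mod_cast (by omega : u.1 ≤ f.1 + 1)
    · rw [h2]; exact_mod_cast (by omega : f.2 ≤ u.2)
    · rw [h2]; exact_mod_cast (by omega : u.2 ≤ f.2 + 1)
  have hsub := H342L.TOPA_outside hn hF he ((Plain.outer_iff F v f).2 hf)
  refine ⟨closure_mono hsub hcl, fun h => ?_⟩
  exact (interior_subset h).1 hbody

theorem t_PLA : St_PLA := by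
  intro n F v d hn hF hp
  obtain ⟨e, v1, v2, u1, u2, f1, f2, heF, hv, hvv1, ⟨hr1, hr2⟩, hnr, ⟨hi1, hi2⟩, ⟨hf1, hf2⟩,
    ho1, ho2⟩ := hp
  have hco : (↑(F.erase e) : Set Edg) = (↑F : Set Edg) \ {e} := Finset.coe_erase e F
  have hsub : (↑F : Set Edg) \ {e} ⊆ ↑F := Set.sdiff_subset
  have h12 : Reach (↑F : Set Edg) v1 v2 := by
    refine Relation.ReflTransGen.single ⟨e, heF, ?_⟩
    rcases hv with h | h
    · exact Or.inl h
    · exact Or.inr h
  have hec : e ∈ Plain.clusterEdges F v := by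
    refine ⟨heF, ?_⟩
    rw [Plain.mem_cluster, Plain.fst_eq]
    rcases hv with ⟨h, _⟩ | ⟨h, _⟩
    · rw [h]; exact hvv1
    · rw [h]; exact hvv1.trans h12
  refine ⟨H342L.pt n v1, H342L.body n (F.erase e) v1, H342L.body n (F.erase e) v2,
    (H342L.CPT_isCompact_body n _ v1).isClosed, (H342L.CPT_isCompact_body n _ v2).isClosed,
    ?_, ?_, ?_, ?_⟩
  · apply PLA_disj hn
    rw [hco]
    exact hnr
  · refine (H342L.CPT_frontier_sub n F v).trans ?_
    have hspl : ∀ w, w ∈ Plain.cluster F v →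
        w ∈ Plain.cluster (F.erase e) v1 ∨ w ∈ Plain.cluster (F.erase e) v2 := by
      intro w hw
      rw [Plain.mem_cluster] at hw
      have h1 := PLA_split hv (hvv1.symm.trans hw)
      rw [Plain.mem_cluster, Plain.mem_cluster, hco]
      exact h1
    intro x hx
    rcases hx with hx | hx
    · obtain ⟨w, hw, hxw⟩ := Set.mem_iUnion₂.1 hx
      left
      rcases hspl w hw with h | h
      · left; left; exact Set.mem_biUnion h hxw
      · right; left; exact Set.mem_biUnion h hxw
    · obtain ⟨g, hg, hxg⟩ := Set.mem_iUnion₂.1 hx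
      by_cases hge : g = e
      · right
        rw [hge] at hxg
        refine PLA_seg ?_ hxg
        rcases hv with ⟨h, _⟩ | ⟨_, h⟩
        · exact Or.inl h.symm
        · exact Or.inr h.symm
      · left
        have hgF : g ∈ F.erase e := Finset.mem_erase.2 ⟨hge, hg.1⟩
        rcases hspl _ hg.2 with h | h
        · left; right; exact Set.mem_biUnion (x := g) ⟨hgF, h⟩ hxg
        · right; right; exact Set.mem_biUnion (x := g) ⟨hgF, h⟩ hxg
  · refine ⟨H342L.pt n u1, PLA_bdry hn hF hec (hvv1.trans (hr1.mono hsub)) hi1 ho1, ?_,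
      PLA_far hf1⟩
    left
    refine Set.mem_biUnion (x := u1) ?_ (Set.mem_singleton _)
    rw [Plain.mem_cluster, hco]
    exact hr1
  · refine ⟨H342L.pt n u2, PLA_bdry hn hF hec ((hvv1.trans h12).trans (hr2.mono hsub)) hi2 ho2,
      ?_, PLA_far hf2⟩
    left
    refine Set.mem_biUnion (x := u2) ?_ (Set.mem_singleton _)
    rw [Plain.mem_cluster, hco]
    exact hr2

end H342N
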