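import Pool.Agent.H342R3.Pin.Stubs
import Pool.Agent.H984R3.Per.HookPr

/-!
PRR: probability of a ring (after `Pool/Agent/H984R3/Per/HookPr.lean`).
-/

namespace H342N

open H974 H984P H342P Finset

theorem PRR_four {κ : ℝ} (hκ : 0 ≤ κ) {S : Finset Edg} {A B C D : Finset Edg → Prop}
    (iA : IncrE S A) (iB : IncrE S B) (iC : IncrE S C) (iD : IncrE S D)
    (hA : κ ≤ Pr (fun _ => (1/2:ℝ)) S A) (hB : κ ≤ Pr (fun _ => (1/2:ℝ)) S B)
    (hC : κ ≤ Pr (fun _ => (1/2:ℝ)) S C) (hD : κ ≤ Pr (fun _ => (1/2:ℝ)) S D) :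
    κ ^ 4 ≤ Pr (fun _ => (1/2:ℝ)) S (fun F => (A F ∧ B F) ∧ (C F ∧ D F)) := by
  have ok : Ok (fun _ : Edg => (1/2:ℝ)) := okq (by norm_num) (by norm_num)
  have h1 := Pr_harris ok iA iB
  have h2 := Pr_harris ok iC iD
  have h3 := Pr_harris ok (A := fun F => A F ∧ B F) (B := fun F => C F ∧ D F)
    (fun F G h h' hF => ⟨iA F G h h' hF.1, iB F G h h' hF.2⟩)
    (fun F G h h' hF => ⟨iC F G h h' hF.1, iD F G h h' hF.2⟩)
  have h4 : κ * κ ≤ Pr (fun _ => (1/2:ℝ)) S (fun F => A F ∧ B F) :=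
    (mul_le_mul hA hB hκ (hκ.trans hA)).trans h1
  have h5 : κ * κ ≤ Pr (fun _ => (1/2:ℝ)) S (fun F => C F ∧ D F) :=
    (mul_le_mul hC hD hκ (hκ.trans hC)).trans h2
  have h6 : (κ * κ) * (κ * κ) ≤ _ :=
    (mul_le_mul h4 h5 (mul_nonneg hκ hκ) ((mul_nonneg hκ hκ).trans h4)).trans h3
  calc κ ^ 4 = (κ * κ) * (κ * κ) := by ring
    _ ≤ _ := h6

theorem t_PRR : St_PRR := by
  refine ⟨((1/2:ℝ)^767)^4, by positivity, fun X Y a S ha hS => ?_⟩
  have h0 : (0:ℝ) ≤ 1/2 := by norm_num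
  have h1 : (1/2:ℝ) ≤ 1 := by norm_num
  have ha' : (1:ℤ) ≤ a := by exact_mod_cast ha
  have key : ∀ w h : ℤ, 0 < w → w ≤ 64 * a → 4 * a ≤ h → (1/2:ℝ)^767 ≤ hh (1/2) w h := by
    intro w h hw hw2 hh2
    refine (H12S.WH.main (h := 4 * (a:ℤ)) (by omega)).trans ?_
    exact hh_mono h0 h1 hw (by omega) hh2
  have hS' : ∀ e, e ∈ Bl X Y a → e ∈ S := fun e he => hS he
  have kLR : ∀ (U : Finset Edg) (p q r s : ℤ), LRE p q r s ⊆ U → 0 < q - p → q - p ≤ 64 * a →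
      4 * a ≤ s - r → (1/2:ℝ)^767 ≤ Pr (fun _ => (1/2:ℝ)) U (LRc p q r s) := by
    intro U p q r s hU h2 h3 h4
    rw [pr_LRc _ hU]
    exact key _ _ h2 h3 h4
  have kTB : ∀ (U : Finset Edg) (p q r s : ℤ), TBE p q r s ⊆ U → 0 < s - r → s - r ≤ 64 * a →
      4 * a ≤ q - p → (1/2:ℝ)^767 ≤ Pr (fun _ => (1/2:ℝ)) U (TBc p q r s) := by
    intro U p q r s hU h2 h3 h4
    rw [pr_TBc _ hU]
    exact key _ _ h2 h3 h4
  -- the edges of the rectangles belong to `dmp S`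
  have sLR : ∀ p q r s : ℤ, X - 8 * a ≤ p → q ≤ X + 56 * a → Y - 8 * a ≤ r → s ≤ Y + 8 * a →
      LRE p q r s ⊆ dmp S := by
    intro p q r s hp hq hr hs
    rintro ⟨x, y, _ | _⟩ he
    · rw [mem_LRE_false] at he
      rw [mem_dmp, dls_f]
      exact hS' _ (by rw [Bl, mem_RE_true]; omega)
    · rw [mem_LRE_true] at he
      rw [mem_dmp, dls_t]
      exact hS' _ (by rw [Bl, mem_RE_false]; omega)
  have sTB : ∀ p q r s : ℤ, X - 8 * a ≤ p → q ≤ X + 56 * a → Y - 8 * a ≤ r → s ≤ Y + 8 * a →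
      TBE p q r s ⊆ dmp S := by
    intro p q r s hp hq hr hs
    rintro ⟨x, y, _ | _⟩ he
    · rw [mem_TBE_false] at he
      rw [mem_dmp, dls_f]
      exact hS' _ (by rw [Bl, mem_RE_true]; omega)
    · rw [mem_TBE_true] at he
      rw [mem_dmp, dls_t]
      exact hS' _ (by rw [Bl, mem_RE_false]; omega)
  have hκ : (0:ℝ) ≤ (1/2:ℝ)^767 := by positivity
  have e := H12S.pr_dual (q := 1/2) S (RingEv X Y a)
  have e1 : (1:ℝ) - 1/2 = 1/2 := by norm_num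
  rw [e1] at e
  unfold H12S.PQ at e
  rw [e]
  exact PRR_four hκ (LRc_incr _ _ _ _ _) (TBc_incr _ _ _ _ _) (LRc_incr _ _ _ _ _)
    (TBc_incr _ _ _ _ _)
    (kLR (dmp S) _ _ _ _ (sLR _ _ _ _ (by omega) (by omega) (by omega) (by omega)) (by omega)
      (by omega) (by omega))
    (kTB (dmp S) _ _ _ _ (sTB _ _ _ _ (by omega) (by omega) (by omega) (by omega)) (by omega)
      (by omega) (by omega))
    (kLR (dmp S) _ _ _ _ (sLR _ _ _ _ (by omega) (by omega) (by omega) (by omega)) (by omega)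
      (by omega) (by omega))
    (kTB (dmp S) _ _ _ _ (sTB _ _ _ _ (by omega) (by omega) (by omega) (by omega)) (by omega)
      (by omega) (by omega))

end H342N
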