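import Pool.Agent.H342R3.Pin.Defs

/-!
Statements (as propositions, nothing is assumed) of the tasks of the project: every subsequential
scaling limit of the outer boundary of the largest critical cluster has a double point.
-/

namespace H342N

open H974 H984P H342P Finset

/-! ### A ring around the tip of a strand -/

/-- XM: a ring contains two connections between a face below and a face above the ray. -/
def St_XM : Prop := ∀ (X Y : ℤ) (a : ℕ) (G : Finset Edg), 1 ≤ a → RingEv X Y a G →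
  ∃ q p : Vtx, ((X + 4 * a ≤ q.1 ∧ q.1 ≤ X + 8 * a) ∧ (Y - 8 * a ≤ q.2 ∧ q.2 ≤ Y - 4 * a)) ∧
    ((X + 4 * a ≤ p.1 ∧ p.1 ≤ X + 8 * a) ∧ (Y + 4 * a ≤ p.2 ∧ p.2 ≤ Y + 8 * a)) ∧
    Reach ((↑G : Set Edg) ∩ ↑(Rg1 X Y a)) q p ∧ Reach ((↑G : Set Edg) ∩ ↑(Rg3 X Y a)) q p

/-- PRR: probability of a ring. -/
def St_PRR : Prop := ∃ c : ℝ, 0 < c ∧ ∀ (X Y : ℤ) (a : ℕ) (S : Finset Edg), 1 ≤ a →
  Bl X Y a ⊆ S → c ≤ Pr (fun _ => (1/2:ℝ)) S (fun F => RingEv X Y a (dmp (S \ F)))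

/-- DET: a closed ring around the tip of a strand creates a pinch. -/
def St_DET : Prop := ∀ (F : Set Edg) (A y0 X Y : ℤ) (T a : ℕ) (hv hf : Vtx → ZMod 2)
  (H : Set Edg) (q p : Vtx), 1 ≤ a → Strand F A y0 X Y T → Side F A y0 X Y T hv hf →
    A + 100 * a ≤ X → (∀ e ∈ Bl X Y a, e ∉ Exm F (st0 A y0) T → e ∈ F → e ∈ H) →
    (X ≤ q.1 ∧ q.2 < Y) → (X ≤ p.1 ∧ Y ≤ p.2) →
    DReach (dE (Rg1 X Y a) \ H) q p → DReach (dE (Rg3 X Y a) \ H) q p →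
    Pin (3 * a) (st0 A y0) (↑(Exm F (st0 A y0) T ∪ Bl X Y a)) F

/-- TRI: trials create pinches with a probability bounded below. -/
def St_TRI : Prop := ∃ c : ℝ, 0 < c ∧ ∀ (S : Finset Edg) (A y0 : ℤ) (a : ℕ), 1 ≤ a →
  TrialP S A y0 a c

/-- ITE: iteration of the trials. -/
def St_ITE : Prop := ∀ (S : Finset Edg) (A y0 H : ℤ) (a K : ℕ) (δ : ℝ), 1 ≤ a → 1 ≤ K →
  0 ≤ δ → δ ≤ 1 →
  RE (A - 60 * a) (A + 121 * a * K + 60 * a) (y0 - H - 60 * a) (y0 + H + 60 * a) ⊆ S →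
  TrialP S A y0 a δ →
  Pr (fun _ => (1/2:ℝ)) S
      (fun F => Long' A y0 H a K (↑F) ∧ ¬ Pin (3 * a) (st0 A y0) Set.univ (↑F)) ≤
    (1 - δ) ^ K * Pr (fun _ => (1/2:ℝ)) S (fun F => Long' A y0 H a 1 (↑F))

/-- ROT: rotation invariance. -/
def St_ROT : Prop := ∀ (d : ℤ) (σ : St) (F : Finset Edg),
  Pin d (rS σ) Set.univ (↑(rM F)) → Pin d σ Set.univ (↑F)

/-- LOW: union bound over the starts and the four directions. -/
def St_LOW : Prop := ∃ C : ℝ, 0 < C ∧ ∀ (n a K : ℕ) (δ : ℝ) (R : ℤ), 5 ≤ a → 1 ≤ K → 0 ≤ δ →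
    δ ≤ 1 → (∀ b c A y0 : ℤ, TrialP (RE b (b + n) c (c + n)) A y0 a δ) →
    121 * a * K + a + 2 ≤ R →
    Pr (fun _ => (1/2:ℝ)) (RE 0 n 0 n) (fun F => ∃ σ : St,
      inR (3 * R + 60 * a) (n - 3 * R - 60 * a) (3 * R + 60 * a) (n - 3 * R - 60 * a) σ.1 ∧
      (∃ t, Far σ.1 R (orb (↑F) σ t).1) ∧ ¬ Pin (3 * a) σ Set.univ (↑F)) ≤
      C * ((n:ℝ) / a + 1) ^ 2 * (1 - δ) ^ K

/-- BRI: an open edge whose sides are joined by a closed dual path is a bridge. -/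
def St_BRI : Prop := ∀ (F : Set Edg) (e : Edg), e ∈ F → DReach Fᶜ (dsrc e) (dtgt e) →
  ¬ Reach (F \ {e}) (src e) (tgt e)

/-- BIG: deterministic conclusion for the largest cluster. -/
def St_BIG : Prop := ∀ (n : ℕ) (F : Finset Edg) (R R1 m d : ℤ), F ⊆ RE 0 n 0 n →
  Big n m (↑F) → 1 ≤ R → R1 < m → 2 * R < m → ¬ LayEv n R1 m (↑F) →
  (¬ ∃ σ : St, inR R1 (n - R1) R1 (n - R1) σ.1 ∧
      (∃ t, Far σ.1 R (orb (↑F) σ t).1) ∧ ¬ Pin d σ Set.univ (↑F)) →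
  ∀ v, IsMax n (↑F) v → PinV d v (↑F)

/-- PAR: choice of the parameters. -/
def St_PAR : Prop := ∀ δ : ℝ, 0 < δ → ∃ ρ : ℝ, 0 < ρ ∧ ∃ n0 : ℕ, ∀ n : ℕ, n0 ≤ n →
  Pr (fun _ => (1/2:ℝ)) (RE 0 n 0 n)
    (fun F => ∃ v, IsMax n (↑F) v ∧ ¬ ∃ d : ℤ, ρ * n ≤ d ∧ PinV d v (↑F)) ≤ δ

/-! ### Topology -/

/-- PLA: a pinched cluster has a pinched outer boundary. -/
def St_PLA : Prop := ∀ (n : ℕ) (F : Finset Edg) (v : Vtx) (d : ℤ), 0 < n →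
  F ⊆ Plain.edges n → PinV d v (↑F) → Pinched (d / n) (1 / n) (H342L.outerBoundary n F v)

/-- CUR: a closed curve with a pinched trace almost has a double point. -/
def St_CUR : Prop := ∀ (c : H342L.Curve) (ρ h : ℝ), c.path 0 = c.path 1 → 0 ≤ h →
  Pinched ρ h (Set.range c.path) → DP (ρ - h) (2 * h) c

/-- CLO: the condition is closed. -/
def St_CLO : Prop := ∀ ρ h : ℝ, IsClosed {c : H342L.Curve | DP ρ h c}

/-- DBL: double points from approximate double points. -/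
def St_DBL : Prop := ∀ (c : H342L.Curve) (ρ : ℝ), 0 < ρ → (∀ h : ℝ, 0 < h → DP ρ h c) →
  HasDouble c

end H342N
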