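import Pool.Agent.H342R3.Pin.Stubs
import Pool.Agent.H984R3.Per.Trial

/-!
TRI: trials create pinches with a probability bounded below.
-/

namespace H342N

open H974 H984P H342P Finset

theorem t_TRI (hX : St_XM) (hP : St_PRR) (hD : St_DET) : St_TRI := by
  classical
  obtain ⟨c, hc, hpr⟩ := hP
  refine ⟨c, hc, ?_⟩
  intro S A y0 a ha k F0 X Y T hF0 hk hst hA hBl hent hEk hkE
  have ha' : (1 : ℤ) ≤ a := by exact_mod_cast ha
  set D := S \ k with hDdef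
  have hDS : D ⊆ S := Finset.sdiff_subset
  have e1 : Pr (fun _ => (1/2:ℝ)) D (fun G => Pin (3 * a) (st0 A y0)
        (↑(Exm (↑F0) (st0 A y0) T ∪ Bl X Y a)) (↑((F0 ∩ k) ∪ G))) =
      Pr (fun _ => (1/2:ℝ)) S (fun G => Pin (3 * a) (st0 A y0)
        (↑(Exm (↑F0) (st0 A y0) T ∪ Bl X Y a)) (↑((F0 ∩ k) ∪ (G ∩ D)))) := by
    rw [Pr_local (S := S) (S' := D) hDS (A := fun G => Pin (3 * a) (st0 A y0)
        (↑(Exm (↑F0) (st0 A y0) T ∪ Bl X Y a)) (↑((F0 ∩ k) ∪ (G ∩ D))))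
      (fun F _ => by rw [Finset.inter_assoc, Finset.inter_self])]
    apply Pr_congr
    intro F hF
    rw [Finset.inter_eq_left.2 hF]
  rw [e1]
  refine (hpr X Y a S ha hBl).trans ?_
  apply Pr_mono Tr760.ok_half
  intro G hG hring
  obtain ⟨q, p, hq, hp, hr1, hr3⟩ := hX X Y a _ ha hring
  have hd1 := reach_dl.1 (hr1.mono dmp_sub)
  have hd3 := reach_dl.1 (hr3.mono dmp_sub)
  -- the configuration with the examined edges
  have hmemk : ∀ e, e ∈ k → (e ∈ F0 ↔ e ∈ (F0 ∩ k) ∪ (G ∩ D)) := by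
    intro e he
    rw [Finset.mem_union, Finset.mem_inter, Finset.mem_inter]
    exact ⟨fun h => Or.inl ⟨h, he⟩, fun h => h.elim (fun h => h.1)
      (fun h => absurd he (Finset.mem_sdiff.1 h.2).2)⟩
  have hagr : ∀ e ∈ Exm (↑F0 : Set Edg) (st0 A y0) T,
      (e ∈ (↑F0 : Set Edg) ↔ e ∈ (↑((F0 ∩ k) ∪ (G ∩ D)) : Set Edg)) :=
    fun e he => hmemk e (hEk he)
  have hent' : ((A - 1, y0, true) : Edg) ∈ (↑((F0 ∩ k) ∪ (G ∩ D)) : Set Edg) :=
    (hmemk _ hent).1 hst.ent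
  have hst' := strand_congr hst hagr hent'
  have hEx : Exm (↑((F0 ∩ k) ∪ (G ∩ D)) : Set Edg) (st0 A y0) T =
      Exm (↑F0 : Set Edg) (st0 A y0) T := Exm_congr hagr
  obtain ⟨hv, hf, hS⟩ := side_exists hst'
  have hfin := hD (↑((F0 ∩ k) ∪ (G ∩ D)) : Set Edg) A y0 X Y T a hv hf (↑G : Set Edg) q p ha
    hst' hS hA
    (by
      intro e he hex heF
      rw [Finset.mem_coe, Finset.mem_union, Finset.mem_inter, Finset.mem_inter] at heF
      rcases heF with h | h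
      · rw [hEx] at hex
        exact absurd (hkE e h.2 he) hex
      · exact h.1)
    ⟨by omega, by omega⟩ ⟨by omega, by omega⟩ hd1 hd3
  rw [hEx] at hfin
  exact hfin

end H342N
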