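import Pool.Agent.H342R3.Pin.Stubs

/-!
XM: a ring contains two connections between a face below and a face above the ray.
-/

set_option autoImplicit false

namespace H342N

open H974 H984P H342P Finset

theorem XM_cross {F : Set Edg} {A B C D a b c d : ℤ} (hab : a < b) (hcd : c < d) {u v u' v' : Vtx}
    (h1 : Reach (F ∩ ↑(RE A B c d)) u v) (hu : u.1 ≤ a) (hv : b ≤ v.1)
    (h2 : Reach (F ∩ ↑(RE a b C D)) u' v') (hu' : u'.2 ≤ c) (hv' : d ≤ v'.2) :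
    ∃ z1 z2 : Vtx, ((a ≤ z2.1 ∧ z2.1 ≤ b) ∧ (c ≤ z2.2 ∧ z2.2 ≤ d)) ∧
      Reach (F ∩ ↑(RE A B c d)) u z1 ∧ Reach (F ∩ ↑(RE a b c d)) z1 z2 ∧
      Reach (F ∩ ↑(RE a b C D)) u' z2 := by
  obtain ⟨y1, y2, k1, k2, k3, k4⟩ := sub_LR (a := a) (b := b) (c := c) (d := d) hab
    (by rintro x y ⟨-, h⟩ _ _; simp only [mem_coe, mem_RE_true] at h; omega)
    (by rintro x y ⟨-, h⟩ _ _; simp only [mem_coe, mem_RE_false] at h; omega) h1 hu hv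
  obtain ⟨x1, x2, l1, l2, l3, l4⟩ := sub_TB (a := a) (b := b) (c := c) (d := d) hcd
    (by rintro x y ⟨-, h⟩ _ _; simp only [mem_coe, mem_RE_false] at h; omega)
    (by rintro x y ⟨-, h⟩ _ _; simp only [mem_coe, mem_RE_true] at h; omega) h2 hu' hv'
  have m := crossings_meet hab hcd.le (F := F) k2 l1
    (k3.mono (by rintro e ⟨⟨h7, -⟩, h8⟩; exact ⟨h7, h8⟩))
    (l3.mono (by rintro e ⟨⟨h7, -⟩, h8⟩; exact ⟨h7, h8⟩))
  exact ⟨(a, y1), (x1, c), ⟨l1, le_rfl, hcd.le⟩, k4, m, l4⟩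

theorem XM_main (X Y : ℤ) (a : ℕ) (G : Finset Edg) (ha : 1 ≤ a) (h : RingEv X Y a G) :
    ∃ q p : Vtx, ((X + 4 * a ≤ q.1 ∧ q.1 ≤ X + 8 * a) ∧ (Y - 8 * a ≤ q.2 ∧ q.2 ≤ Y - 4 * a)) ∧
    ((X + 4 * a ≤ p.1 ∧ p.1 ≤ X + 8 * a) ∧ (Y + 4 * a ≤ p.2 ∧ p.2 ≤ Y + 8 * a)) ∧
    Reach ((↑G : Set Edg) ∩ ↑(Rg1 X Y a)) q p ∧ Reach ((↑G : Set Edg) ∩ ↑(Rg3 X Y a)) q p := by
  have ha' : (1:ℤ) ≤ a := by exact_mod_cast ha
  obtain ⟨⟨⟨b, b', hb, hb', hB⟩, ⟨w, w', hw, hw', hW⟩⟩, ⟨⟨n, n', hn, hn', hN⟩,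
    ⟨e, e', he, he', hE⟩⟩⟩ := h
  have t1 : (↑(LRE (X - 8 * a) (X + 8 * a) (Y - 8 * a) (Y - 4 * a)) : Set Edg) ⊆
      ↑(RE (X - 8 * a) (X + 8 * a) (Y - 8 * a) (Y - 4 * a)) := by exact_mod_cast LRE_subset_RE
  have t2 : (↑(TBE (X - 8 * a) (X - 4 * a) (Y - 8 * a) (Y + 8 * a)) : Set Edg) ⊆
      ↑(RE (X - 8 * a) (X - 4 * a) (Y - 8 * a) (Y + 8 * a)) := by exact_mod_cast TBE_subset_RE
  have t3 : (↑(LRE (X - 8 * a) (X + 8 * a) (Y + 4 * a) (Y + 8 * a)) : Set Edg) ⊆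
      ↑(RE (X - 8 * a) (X + 8 * a) (Y + 4 * a) (Y + 8 * a)) := by exact_mod_cast LRE_subset_RE
  have t4 : (↑(TBE (X + 4 * a) (X + 8 * a) (Y - 8 * a) (Y + 8 * a)) : Set Edg) ⊆
      ↑(RE (X + 4 * a) (X + 8 * a) (Y - 8 * a) (Y + 8 * a)) := by exact_mod_cast TBE_subset_RE
  have s1 : (↑(RE (X - 8 * a) (X + 8 * a) (Y - 8 * a) (Y - 4 * a)) : Set Edg) ⊆
      ↑(Rg3 X Y a) := by
    intro x hx
    simp only [Rg3, Finset.coe_union]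
    exact Or.inl (Or.inl hx)
  have s2 : (↑(RE (X - 8 * a) (X - 4 * a) (Y - 8 * a) (Y + 8 * a)) : Set Edg) ⊆
      ↑(Rg3 X Y a) := by
    intro x hx
    simp only [Rg3, Finset.coe_union]
    exact Or.inl (Or.inr hx)
  have s3 : (↑(RE (X - 8 * a) (X + 8 * a) (Y + 4 * a) (Y + 8 * a)) : Set Edg) ⊆
      ↑(Rg3 X Y a) := by
    intro x hx
    simp only [Rg3, Finset.coe_union]
    exact Or.inr hx
  have c1 : (↑(RE (X + 4 * a) (X + 8 * a) (Y - 8 * a) (Y - 4 * a)) : Set Edg) ⊆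
      ↑(RE (X - 8 * a) (X + 8 * a) (Y - 8 * a) (Y - 4 * a)) := by
    exact_mod_cast RE_subset (by omega) le_rfl le_rfl le_rfl
  have c3 : (↑(RE (X + 4 * a) (X + 8 * a) (Y + 4 * a) (Y + 8 * a)) : Set Edg) ⊆
      ↑(RE (X - 8 * a) (X + 8 * a) (Y + 4 * a) (Y + 8 * a)) := by
    exact_mod_cast RE_subset (by omega) le_rfl le_rfl le_rfl
  set H : Set Edg := (↑G : Set Edg) ∩ ↑(Rg3 X Y a) with hH
  have hB3 : Reach (H ∩ ↑(RE (X - 8 * a) (X + 8 * a) (Y - 8 * a) (Y - 4 * a)))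
      (X - 8 * a, b) (X + 8 * a, b') :=
    hB.mono (by rintro e ⟨h1, h2⟩; exact ⟨⟨h1, s1 (t1 h2)⟩, t1 h2⟩)
  have hW3 : Reach (H ∩ ↑(RE (X - 8 * a) (X - 4 * a) (Y - 8 * a) (Y + 8 * a)))
      (w, Y - 8 * a) (w', Y + 8 * a) :=
    hW.mono (by rintro e ⟨h1, h2⟩; exact ⟨⟨h1, s2 (t2 h2)⟩, t2 h2⟩)
  have hN3 : Reach (H ∩ ↑(RE (X - 8 * a) (X + 8 * a) (Y + 4 * a) (Y + 8 * a)))
      (X - 8 * a, n) (X + 8 * a, n') :=
    hN.mono (by rintro e ⟨h1, h2⟩; exact ⟨⟨h1, s3 (t3 h2)⟩, t3 h2⟩)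
  have hB1 : Reach ((↑G : Set Edg) ∩ ↑(RE (X - 8 * a) (X + 8 * a) (Y - 8 * a) (Y - 4 * a)))
      (X - 8 * a, b) (X + 8 * a, b') :=
    hB.mono (by rintro e ⟨h1, h2⟩; exact ⟨h1, t1 h2⟩)
  have hN1 : Reach ((↑G : Set Edg) ∩ ↑(RE (X - 8 * a) (X + 8 * a) (Y + 4 * a) (Y + 8 * a)))
      (X - 8 * a, n) (X + 8 * a, n') :=
    hN.mono (by rintro e ⟨h1, h2⟩; exact ⟨h1, t3 h2⟩)
  have hE1 : Reach ((↑G : Set Edg) ∩ ↑(RE (X + 4 * a) (X + 8 * a) (Y - 8 * a) (Y + 8 * a)))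
      (e, Y - 8 * a) (e', Y + 8 * a) :=
    hE.mono (by rintro e ⟨h1, h2⟩; exact ⟨h1, t4 h2⟩)
  -- the two left corners
  have m1 : Reach H (X - 8 * a, b) (w, Y - 8 * a) :=
    (cross_meet (A := X - 8 * a) (B := X + 8 * a) (C := Y - 8 * a) (D := Y + 8 * a) le_rfl
      (by omega) (by omega) le_rfl (by omega) (by omega) hB3 (by simp) (by simp only; omega)
      hW3 (by simp) (by simp only; omega)).mono Set.inter_subset_left
  have m2 : Reach H (X - 8 * a, n) (w, Y - 8 * a) :=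
    (cross_meet (A := X - 8 * a) (B := X + 8 * a) (C := Y - 8 * a) (D := Y + 8 * a) le_rfl
      (by omega) (by omega) (by omega) (by omega) le_rfl hN3 (by simp) (by simp only; omega)
      hW3 (by simp only; omega) (by simp)).mono Set.inter_subset_left
  -- the two right corners
  obtain ⟨z1, q, hq, q1, q2, q3⟩ := XM_cross (by omega) (by omega) hB1 (by simp only; omega)
    (by simp) hE1 (by simp) (by simp only; omega)
  obtain ⟨z3, p, hp, p1, p2, p3⟩ := XM_cross (by omega) (by omega) hN1 (by simp only; omega)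
    (by simp) hE1 (by simp only; omega) (by simp)
  have r1 : Reach H (X - 8 * a, b) q :=
    (q1.mono (Set.inter_subset_inter_right _ s1)).trans
      (q2.mono (Set.inter_subset_inter_right _ (c1.trans s1)))
  have r2 : Reach H (X - 8 * a, n) p :=
    (p1.mono (Set.inter_subset_inter_right _ s3)).trans
      (p2.mono (Set.inter_subset_inter_right _ (c3.trans s3)))
  exact ⟨q, p, hq, hp, q3.symm.trans p3, r1.symm.trans (m1.trans (m2.symm.trans r2))⟩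

theorem t_XM : St_XM := XM_main

end H342N
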